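import Mathlib

/-! Even words, expansions of products of sums, and two facts on operators of Hilbert space. -/

set_option autoImplicit false

open Finset

namespace Pool.Agent.H12RS

/-- all letters of the word occur an even number of times -/
def EvenWord {q m : ℕ} (s : Fin q → Fin m) : Prop := ∀ j, Even ((univ.filter (fun i => s i = j)).card)

/-- signs given by a set -/
def sgn {m : ℕ} (T : Finset (Fin m)) (j : Fin m) : ℝ := if j ∈ T then -1 else 1

lemma prod_word {q m : ℕ} (g : Fin m → ℝ) (s : Fin q → Fin m) :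
    ∏ i, g (s i) = ∏ j, g j ^ ((univ.filter (fun i => s i = j)).card) := by
  rw [← prod_fiberwise (univ : Finset (Fin q)) s (fun i => g (s i))]
  refine prod_congr rfl (fun j _ => ?_)
  rw [← prod_const]
  refine prod_congr rfl (fun i hi => ?_)
  rw [(mem_filter.1 hi).2]

lemma sum_sgn_pow {q m : ℕ} (s : Fin q → Fin m) :
    ∑ T ∈ (univ : Finset (Fin m)).powerset, ∏ i, sgn T (s i) =
      ∏ j : Fin m, (1 + (-1 : ℝ) ^ ((univ.filter (fun i => s i = j)).card)) := by
  have h : ∀ T : Finset (Fin m), ∏ i, sgn T (s i) =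
      (∏ j ∈ T, (-1 : ℝ) ^ ((univ.filter (fun i => s i = j)).card)) * ∏ j ∈ univ \ T, (1 : ℝ) := by
    intro T
    rw [prod_word, prod_const_one, mul_one, ← Finset.prod_sdiff (subset_univ T)]
    rw [show ∏ j ∈ univ \ T, sgn T j ^ ((univ.filter (fun i => s i = j)).card) = 1 from
      prod_eq_one (fun j hj => by
        rw [Finset.mem_sdiff] at hj
        unfold sgn
        rw [if_neg hj.2, one_pow]), one_mul]
    refine prod_congr rfl (fun j hj => ?_)
    unfold sgn
    rw [if_pos hj]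
  simp_rw [h]
  rw [← Finset.prod_add]
  refine prod_congr rfl (fun j _ => ?_)
  ring

open Classical in
lemma even_count_le (p m : ℕ) (hp : 1 ≤ p) (hm : 1 ≤ m) :
    (((univ : Finset (Fin (2 * p) → Fin m)).filter EvenWord).card : ℝ) ≤
      2 * (2 * p * Real.exp 1 * m) ^ p := by
  have hp0 : (0 : ℝ) < p := by exact_mod_cast hp
  have hm0 : (0 : ℝ) < m := by exact_mod_cast hm
  -- the moments of the sum of signs
  have h1 : (2 : ℝ) ^ m * (((univ : Finset (Fin (2 * p) → Fin m)).filter EvenWord).card : ℝ) ≤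
      ∑ T ∈ (univ : Finset (Fin m)).powerset, (∑ j, sgn T j) ^ (2 * p) := by
    have e1 : ∀ T : Finset (Fin m), (∑ j, sgn T j) ^ (2 * p) =
        ∑ s : Fin (2 * p) → Fin m, ∏ i, sgn T (s i) := by
      intro T
      have := Finset.prod_univ_sum (fun _ : Fin (2 * p) => (univ : Finset (Fin m)))
        (fun _ j => sgn T j)
      rw [prod_const, card_univ, Fintype.card_fin, Fintype.piFinset_univ] at this
      exact this
    simp_rw [e1]
    rw [sum_comm]
    simp_rw [sum_sgn_pow]
    rw [card_eq_sum_ones, Nat.cast_sum, mul_sum, sum_filter]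
    refine sum_le_sum (fun s _ => ?_)
    split_ifs with hs
    · have : ∏ j : Fin m, (1 + (-1 : ℝ) ^ ((univ.filter (fun i => s i = j)).card)) = 2 ^ m := by
        rw [show (2 : ℝ) ^ m = ∏ j : Fin m, 2 by simp]
        refine prod_congr rfl (fun j _ => ?_)
        rw [(hs j).neg_one_pow]; norm_num
      rw [this]
      simp
    · refine prod_nonneg (fun j _ => ?_)
      rcases neg_one_pow_eq_or ℝ ((univ.filter (fun i => s i = j)).card) with h | h <;>
        rw [h] <;> norm_num
  obtain ⟨t, ht⟩ : ∃ t : ℝ, t = Real.sqrt (2 * p / m) := ⟨_, rfl⟩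
  have ht0 : 0 < t := by rw [ht]; exact Real.sqrt_pos.2 (by positivity)
  have ht2 : t ^ 2 = 2 * p / m := by rw [ht]; exact Real.sq_sqrt (by positivity)
  have h2 : ∀ x : ℝ, x ^ (2 * p) ≤ ((2 * p).factorial : ℝ) / t ^ (2 * p) *
      (Real.exp (t * x) + Real.exp (-(t * x))) := by
    intro x
    have h3 := Real.pow_div_factorial_le_exp |t * x| (abs_nonneg _) (2 * p)
    have h4 : Real.exp |t * x| ≤ Real.exp (t * x) + Real.exp (-(t * x)) := by
      rcases abs_cases (t * x) with ⟨h6, _⟩ | ⟨h6, _⟩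
      · rw [h6]; linarith [Real.exp_pos (-(t * x))]
      · rw [h6]; linarith [Real.exp_pos (t * x)]
    have h5 : |t * x| ^ (2 * p) = t ^ (2 * p) * x ^ (2 * p) := by
      rw [Even.pow_abs (even_two_mul p), mul_pow]
    rw [h5, div_le_iff₀ (by positivity)] at h3
    rw [div_mul_eq_mul_div, le_div_iff₀ (by positivity)]
    nlinarith [(Nat.cast_pos (α := ℝ)).2 (Nat.factorial_pos (2 * p))]
  have h3 : ∀ r : ℝ, ∑ T ∈ (univ : Finset (Fin m)).powerset, Real.exp (r * ∑ j, sgn T j) =
      (2 * Real.cosh r) ^ m := by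
    intro r
    have e2 : ∀ T : Finset (Fin m), Real.exp (r * ∑ j, sgn T j) =
        (∏ j ∈ T, Real.exp (-r)) * ∏ j ∈ univ \ T, Real.exp r := by
      intro T
      rw [mul_sum, Real.exp_sum, ← Finset.prod_sdiff (subset_univ T), mul_comm]
      congr 1
      · refine prod_congr rfl (fun j hj => ?_)
        unfold sgn; rw [if_pos hj]; ring_nf
      · refine prod_congr rfl (fun j hj => ?_)
        rw [Finset.mem_sdiff] at hj
        unfold sgn; rw [if_neg hj.2]; ring_nf
    simp_rw [e2]
    rw [← Finset.prod_add, prod_const, card_univ, Fintype.card_fin, Real.cosh_eq]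
    congr 1
    ring
  have h4 : ∑ T ∈ (univ : Finset (Fin m)).powerset, (∑ j, sgn T j) ^ (2 * p) ≤
      ((2 * p).factorial : ℝ) / t ^ (2 * p) * (2 * (2 * Real.cosh t) ^ m) := by
    refine (sum_le_sum (fun T _ => h2 (∑ j, sgn T j))).trans (le_of_eq ?_)
    rw [← mul_sum, sum_add_distrib, h3]
    have h5 := h3 (-t)
    rw [Real.cosh_neg] at h5
    have h6 : ∑ T ∈ (univ : Finset (Fin m)).powerset, Real.exp (-(t * ∑ j, sgn T j)) =
        (2 * Real.cosh t) ^ m := by
      rw [← h5]
      refine sum_congr rfl (fun T _ => ?_)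
      rw [neg_mul]
    rw [h6]
    ring
  have h5 : (2 * Real.cosh t) ^ m ≤ 2 ^ m * Real.exp p := by
    rw [mul_pow]
    refine mul_le_mul_of_nonneg_left ?_ (by positivity)
    calc Real.cosh t ^ m ≤ Real.exp (t ^ 2 / 2) ^ m :=
          pow_le_pow_left₀ (Real.cosh_pos _).le (Real.cosh_le_exp_half_sq t) m
      _ = Real.exp p := by
          rw [← Real.exp_nat_mul, ht2]
          congr 1
          field_simp
  have h6 : ((2 * p).factorial : ℝ) ≤ ((2 * p : ℕ) : ℝ) ^ (2 * p) := by
    exact_mod_cast Nat.factorial_le_pow (2 * p)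
  have h7 : t ^ (2 * p) = (2 * p / m) ^ p := by rw [pow_mul, ht2]
  have h8 : (2 : ℝ) ^ m * (((univ : Finset (Fin (2 * p) → Fin m)).filter EvenWord).card : ℝ) ≤
      2 ^ m * (2 * (2 * p * Real.exp 1 * m) ^ p) := by
    refine h1.trans (h4.trans ?_)
    calc ((2 * p).factorial : ℝ) / t ^ (2 * p) * (2 * (2 * Real.cosh t) ^ m)
        ≤ ((2 * p : ℕ) : ℝ) ^ (2 * p) / t ^ (2 * p) * (2 * (2 ^ m * Real.exp p)) := by
          gcongr
      _ = 2 ^ m * (2 * (2 * p * Real.exp 1 * m) ^ p) := by
          rw [h7, pow_mul ((2 * p : ℕ) : ℝ) 2 p, ← div_pow]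
          have e3 : Real.exp (p : ℝ) = Real.exp 1 ^ p := by
            rw [← Real.exp_nat_mul, mul_one]
          rw [e3]
          have e5 : ((2 * p : ℕ) : ℝ) ^ 2 / (2 * p / m) = 2 * p * m := by
            push_cast
            field_simp
          rw [e5]
          rw [show (2 * (p : ℝ) * Real.exp 1 * m) = (2 * p * m) * Real.exp 1 by ring, mul_pow]
          ring
  exact le_of_mul_le_mul_left h8 (by positivity)

/-- products of sums -/
noncomputable def prodSum {A : Type*} [Ring A] [Algebra ℝ A] {m : ℕ} (c : ℕ → Fin m → A) (z : Fin m → ℝ) :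
    ℕ → A
  | 0 => 1
  | q + 1 => prodSum c z q * ∑ j, z j • c q j

/-- products along words -/
noncomputable def wordProd {A : Type*} [Ring A] {m : ℕ} (c : ℕ → Fin m → A) :
    (q : ℕ) → (Fin q → Fin m) → A
  | 0, _ => 1
  | q + 1, s => wordProd c q (Fin.init s) * c q (s (Fin.last q))

lemma prodSum_eq {A : Type*} [Ring A] [Algebra ℝ A] {m : ℕ} (c : ℕ → Fin m → A) (z : Fin m → ℝ)
    (q : ℕ) : prodSum c z q = ∑ s : Fin q → Fin m, (∏ i, z (s i)) • wordProd c q s := by
  induction q with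
  | zero => simp [prodSum, wordProd]
  | succ q ih =>
    rw [prodSum, ih, sum_mul_sum]
    rw [← (Fin.snocEquiv (fun _ : Fin (q + 1) => Fin m)).sum_comp, Fintype.sum_prod_type, sum_comm]
    refine sum_congr rfl (fun j _ => sum_congr rfl (fun s _ => ?_))
    have e : Fin.init ((Fin.snocEquiv fun _ : Fin (q + 1) => Fin m) (j, s)) = s := by
      funext i
      simp [Fin.init, Fin.snocEquiv]
    have e' : (Fin.snocEquiv fun _ : Fin (q + 1) => Fin m) (j, s) (Fin.last q) = j := by
      simp [Fin.snocEquiv]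
    rw [wordProd, e, e', Fin.prod_univ_castSucc, e']
    rw [show (∏ i : Fin q, z ((Fin.snocEquiv fun _ : Fin (q + 1) => Fin m) (j, s) i.castSucc)) =
      ∏ i : Fin q, z (s i) from prod_congr rfl (fun i _ => by simp [Fin.snocEquiv])]
    rw [smul_mul_smul_comm]

lemma norm_wordProd {A : Type*} [NormedRing A] {m : ℕ} (c : ℕ → Fin m → A)
    (h1 : ‖(1 : A)‖ ≤ 1) (hc : ∀ i j, ‖c i j‖ ≤ 1) (q : ℕ) (s : Fin q → Fin m) :
    ‖wordProd c q s‖ ≤ 1 := by
  induction q with
  | zero => simpa [wordProd] using h1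
  | succ q ih =>
    rw [wordProd]
    calc ‖wordProd c q (Fin.init s) * c q (s (Fin.last q))‖ ≤
        ‖wordProd c q (Fin.init s)‖ * ‖c q (s (Fin.last q))‖ := norm_mul_le _ _
      _ ≤ 1 * 1 := mul_le_mul (ih _) (hc _ _) (norm_nonneg _) (by norm_num)
      _ = 1 := by norm_num

end Pool.Agent.H12RS
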