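import Pool.Agent.H12RS.Exp

/-! Systems of entropy `h`: the averages are at most `√(2 h)`. -/

set_option autoImplicit false

open Finset Filter Topology Uniformity

namespace Pool.Agent.H12RS

universe u

/-- a rational number of `[-1, 1]` near a given real number -/
lemma near_rat {x : ℝ} (hx : |x| ≤ 1) {δ : ℝ} (hδ : 0 < δ) :
    ∃ q : ℚ, |(q : ℝ)| ≤ 1 ∧ |x - q| ≤ δ := by
  rcases lt_or_ge x 0 with h | h
  · have h1 := (abs_le.1 hx).1
    obtain ⟨q, hq1, hq2⟩ := exists_rat_btwn (show x < min 0 (x + δ) by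
      rw [lt_min_iff]; exact ⟨h, by linarith⟩)
    have h3 := lt_of_lt_of_le hq2 (min_le_left _ _)
    have h4 := lt_of_lt_of_le hq2 (min_le_right _ _)
    refine ⟨q, ?_, ?_⟩
    · rw [abs_le]; constructor <;> linarith
    · rw [abs_le]; constructor <;> linarith
  · have h1 := (abs_le.1 hx).2
    by_cases h0 : x = 0
    · exact ⟨0, by simp, by simp [h0, hδ.le]⟩
    obtain ⟨q, hq1, hq2⟩ := exists_rat_btwn (show max 0 (x - δ) < x by
      rw [max_lt_iff]; exact ⟨lt_of_le_of_ne h (Ne.symm h0), by linarith⟩)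
    have h3 := lt_of_le_of_lt (le_max_left _ _) hq1
    have h4 := lt_of_le_of_lt (le_max_right _ _) hq1
    refine ⟨q, ?_, ?_⟩
    · rw [abs_le]; constructor <;> linarith
    · rw [abs_le]; constructor <;> linarith

/-- good covers by dynamical balls -/
lemma exists_cover {X : Type u} [UniformSpace X] (T : X → X) {h : ℝ}
    (hent : Dynamics.coverEntropy T Set.univ ≤ (h : EReal)) {U : SetRel X X} (hU : U ∈ 𝓤 X) {b : ℝ}
    (hb : h < b) : ∀ᶠ m : ℕ in atTop, ∃ s : Finset X, (s.card : ℝ) ≤ Real.exp (b * m) ∧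
      ∀ x, ∃ y ∈ s, ∀ k < m, (T^[k] x, T^[k] y) ∈ U := by
  have h1 : Dynamics.coverEntropyEntourage T Set.univ U < (b : EReal) :=
    lt_of_le_of_lt ((Dynamics.coverEntropyEntourage_le_coverEntropy T Set.univ hU).trans hent)
      (by exact_mod_cast hb)
  have h2 := ExpGrowth.eventually_le_exp h1
  filter_upwards [h2] with m hm
  have h3 : EReal.exp ((b : EReal) * (m : EReal)) = ENNReal.ofReal (Real.exp (b * m)) := by
    have : ((b : EReal) * (m : EReal)) = ((b * m : ℝ) : EReal) := by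
      rw [EReal.coe_mul]; rfl
    rw [this, EReal.exp_coe]
  rw [h3] at hm
  have h4 : Dynamics.coverMincard T Set.univ U m < ⊤ := by
    by_contra hcon
    rw [not_lt, top_le_iff] at hcon
    rw [hcon] at hm
    simp at hm
  obtain ⟨s, hs1, hs2⟩ := (Dynamics.coverMincard_finite_iff T Set.univ U m).1 h4
  refine ⟨s, ?_, ?_⟩
  · rw [← hs2] at hm
    have h5 : ((s.card : ℕ) : ENNReal) ≤ ENNReal.ofReal (Real.exp (b * m)) := by
      simpa using hm
    have h6 := (ENNReal.toReal_le_toReal (ENNReal.natCast_ne_top _) ENNReal.ofReal_ne_top).2 h5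
    rw [ENNReal.toReal_ofReal (Real.exp_pos _).le, ENNReal.toReal_natCast] at h6
    exact h6
  · intro x
    obtain ⟨y, hy, hxy⟩ := hs1 (Set.mem_univ x)
    exact ⟨y, by exact_mod_cast hy, Dynamics.mem_dynEntourage.1 hxy⟩

/-- the bound with a rational parameter -/
theorem moving_rat (L w : ℕ → ℝ) (hL : ∀ n, L n = 1 ∨ L n = -1) (hw : ∀ n, |w n| ≤ 1)
    (hyp : Hyp L w) {X : Type u} [MetricSpace X] [CompactSpace X] (T : X → X) {h : ℝ}
    (hent : Dynamics.coverEntropy T Set.univ ≤ (h : EReal)) (f : X → ℝ) (hf : Continuous f)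
    (hf1 : ∀ x, |f x| ≤ 1) (t : ℚ) (htq : 0 < t) {c : ℝ}
    (hc : (h + Real.log (Real.cosh t)) / t < c) :
    ∀ᶠ m : ℕ in atTop, ∀ᶠ N : ℕ in atTop, ∀ y : ℕ → X,
      ∑ n ∈ Icc 1 N, |∑ j : Fin m, w (n + j) * L (n + j) * f (T^[(j : ℕ)] (y n))| ≤ c * m * N := by
  classical
  rcases isEmpty_or_nonempty X with hX | hX
  · exact Filter.Eventually.of_forall (fun m => Filter.Eventually.of_forall
      (fun N y => (hX.false (y 0)).elim))
  have ht0 : (0 : ℝ) < t := by exact_mod_cast htq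
  obtain ⟨D, hD⟩ : ∃ D : ℝ, D = c - (h + Real.log (Real.cosh t)) / t := ⟨_, rfl⟩
  have hD0 : 0 < D := by rw [hD]; linarith
  obtain ⟨κ, hκ⟩ : ∃ κ : ℝ, κ = D / (3 * (1 + 1 / t)) := ⟨_, rfl⟩
  have hκ0 : 0 < κ := by rw [hκ]; positivity
  have hκ1 : 3 * (κ + κ / t) = D := by
    rw [hκ]
    field_simp
  have hU : {p : X × X | dist (f p.1) (f p.2) < κ / 2} ∈ 𝓤 X :=
    (CompactSpace.uniformContinuous_of_continuous hf)
      (Metric.dist_mem_uniformity (by positivity))
  have hcov := exists_cover T hent hU (show h < h + κ by linarith)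
  have hbig : ∀ᶠ m : ℕ in atTop, (Real.log 2 + 1) / κ ≤ m :=
    tendsto_natCast_atTop_atTop.eventually_ge_atTop _
  filter_upwards [hcov, hbig, eventually_ge_atTop 1] with m hm hm1 hm2
  obtain ⟨s, hs1, hs2⟩ := hm
  choose q hq1 hq2 using fun x : X => near_rat (hf1 x) (show 0 < κ / 2 by positivity)
  set W : Finset (Fin m → ℚ) := s.image (fun y => fun j : Fin m => q (T^[(j : ℕ)] y)) with hWdef
  have hm0 : (0 : ℝ) < m := by exact_mod_cast hm2
  have hsne : s.Nonempty := by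
    obtain ⟨x⟩ := hX
    obtain ⟨y, hy, _⟩ := hs2 x
    exact ⟨y, hy⟩
  have hWne : W.Nonempty := hsne.image _
  have hWc : (W.card : ℝ) ≤ Real.exp ((h + κ) * m) := by
    refine le_trans ?_ hs1
    exact_mod_cast card_image_le
  have hWc0 : (0 : ℝ) < W.card := by exact_mod_cast hWne.card_pos
  have hlog : Real.log (2 * W.card) ≤ Real.log 2 + (h + κ) * m := by
    rw [Real.log_mul (by norm_num) hWc0.ne']
    have := Real.log_le_log hWc0 hWc
    rw [Real.log_exp] at this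
    linarith
  have hmain := words L w hL hw hyp W hWne (by
    intro a ha j
    rw [hWdef, mem_image] at ha
    obtain ⟨y, _, rfl⟩ := ha
    exact hq1 _) t htq (show (0 : ℝ) < 1 by norm_num)
  have hwL : ∀ n, |w n * L n| ≤ 1 := by
    intro n
    rcases hL n with h | h <;> rw [h] <;> simpa using hw n
  filter_upwards [hmain] with N hN
  intro y
  have h1 := hN (fun n => |∑ j : Fin m, w (n + j) * L (n + j) * f (T^[(j : ℕ)] (y n))| - m * κ) (by
    intro n
    obtain ⟨z, hz, hyz⟩ := hs2 (y n)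
    refine ⟨_, mem_image.2 ⟨z, hz, rfl⟩, ?_⟩
    have h2 : |∑ j : Fin m, w (n + j) * L (n + j) * f (T^[(j : ℕ)] (y n)) -
        SW L w (fun j : Fin m => q (T^[(j : ℕ)] z)) n| ≤ m * κ := by
      unfold SW
      rw [← sum_sub_distrib]
      refine (abs_sum_le_sum_abs _ _).trans ?_
      calc ∑ j : Fin m, |w (n + j) * L (n + j) * f (T^[(j : ℕ)] (y n)) -
          w (n + j) * L (n + j) * q (T^[(j : ℕ)] z)| ≤ ∑ j : Fin m, κ := by
            refine sum_le_sum (fun j _ => ?_)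
            rw [← mul_sub, abs_mul]
            have h2 : dist (f (T^[(j : ℕ)] (y n))) (f (T^[(j : ℕ)] z)) < κ / 2 := hyz j j.2
            rw [Real.dist_eq] at h2
            have h4 := hq2 (T^[(j : ℕ)] z)
            have h6 := abs_lt.1 h2
            have h7 := abs_le.1 h4
            have h8 : |f (T^[(j : ℕ)] (y n)) - q (T^[(j : ℕ)] z)| ≤ κ := by
              rw [abs_le]
              constructor <;> linarith [h6.1, h6.2, h7.1, h7.2]
            calc |w (n + j) * L (n + j)| * |f (T^[(j : ℕ)] (y n)) - q (T^[(j : ℕ)] z)| ≤ 1 * κ :=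
                  mul_le_mul (hwL _) h8 (abs_nonneg _) (by norm_num)
              _ = κ := one_mul _
        _ = m * κ := by simp
    have h3 := abs_add_le (∑ j : Fin m, w (n + j) * L (n + j) * f (T^[(j : ℕ)] (y n)) -
        SW L w (fun j : Fin m => q (T^[(j : ℕ)] z)) n) (SW L w (fun j : Fin m => q (T^[(j : ℕ)] z)) n)
    rw [sub_add_cancel] at h3
    linarith)
  rw [sum_sub_distrib] at h1
  have h4 : ∑ n ∈ Icc 1 N, (m : ℝ) * κ = m * κ * N := by simp; ring
  rw [h4] at h1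
  have h5 : m * κ + (1 / (t : ℝ)) * (Real.log (2 * W.card) + m * Real.log (Real.cosh t) + 1) ≤
      c * m := by
    have h6 : (1 / (t : ℝ)) * (Real.log (2 * W.card) + m * Real.log (Real.cosh t) + 1) ≤
        (1 / (t : ℝ)) * ((Real.log 2 + 1) + κ * m + (h + Real.log (Real.cosh t)) * m) :=
      mul_le_mul_of_nonneg_left (by nlinarith) (by positivity)
    have h7 : Real.log 2 + 1 ≤ κ * m := by
      rw [div_le_iff₀ hκ0] at hm1
      linarith
    have h8 : (1 / (t : ℝ)) * ((Real.log 2 + 1) + κ * m + (h + Real.log (Real.cosh t)) * m) ≤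
        (1 / (t : ℝ)) * (2 * (κ * m) + (h + Real.log (Real.cosh t)) * m) :=
      mul_le_mul_of_nonneg_left (by linarith) (by positivity)
    have h9 : (1 / (t : ℝ)) * (2 * (κ * m) + (h + Real.log (Real.cosh t)) * m) =
        (2 * (κ / t) + (h + Real.log (Real.cosh t)) / t) * m := by
      field_simp
    have h10 : κ + (2 * (κ / t) + (h + Real.log (Real.cosh t)) / t) ≤ c := by
      have : 0 < κ / t := by positivity
      linarith
    nlinarith
  have hN0 : (0 : ℝ) ≤ N := Nat.cast_nonneg N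
  nlinarith [mul_le_mul_of_nonneg_right h5 hN0]

/-- the bound with a real parameter -/
theorem moving (L w : ℕ → ℝ) (hL : ∀ n, L n = 1 ∨ L n = -1) (hw : ∀ n, |w n| ≤ 1)
    (hyp : Hyp L w) {X : Type u} [MetricSpace X] [CompactSpace X] (T : X → X) {h : ℝ}
    (hent : Dynamics.coverEntropy T Set.univ ≤ (h : EReal)) (f : X → ℝ) (hf : Continuous f)
    (hf1 : ∀ x, |f x| ≤ 1) (t : ℝ) (ht : 0 < t) {c : ℝ}
    (hc : (h + Real.log (Real.cosh t)) / t < c) :
    ∀ᶠ m : ℕ in atTop, ∀ᶠ N : ℕ in atTop, ∀ y : ℕ → X,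
      ∑ n ∈ Icc 1 N, |∑ j : Fin m, w (n + j) * L (n + j) * f (T^[(j : ℕ)] (y n))| ≤ c * m * N := by
  have hcont : ContinuousAt (fun s : ℝ => (h + Real.log (Real.cosh s)) / s) t := by
    refine ContinuousAt.div ?_ continuousAt_id ht.ne'
    exact continuousAt_const.add
      ((Real.continuous_cosh.continuousAt).log (Real.cosh_pos t).ne')
  have h1 : ∀ᶠ s in 𝓝 t, (h + Real.log (Real.cosh s)) / s < c ∧ 0 < s :=
    (hcont.eventually (gt_mem_nhds hc)).and (lt_mem_nhds ht)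
  obtain ⟨a, b, hab, hsub⟩ := mem_nhds_iff_exists_Ioo_subset.1 h1
  obtain ⟨q, hq1, hq2⟩ := exists_rat_btwn (hab.1.trans hab.2)
  have h2 := hsub ⟨hq1, hq2⟩
  exact moving_rat L w hL hw hyp T hent f hf hf1 q (by exact_mod_cast h2.2) h2.1

/-- averages along orbits -/
theorem orbit (L w : ℕ → ℝ) (hL : ∀ n, L n = 1 ∨ L n = -1) (hw : ∀ n, |w n| ≤ 1)
    (hyp : Hyp L w) {X : Type u} [MetricSpace X] [CompactSpace X] (T : X → X) {h : ℝ}
    (hent : Dynamics.coverEntropy T Set.univ ≤ (h : EReal)) (f : X → ℝ) (hf : Continuous f)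
    (hf1 : ∀ x, |f x| ≤ 1) (t : ℝ) (ht : 0 < t) {c : ℝ}
    (hc : (h + Real.log (Real.cosh t)) / t < c) :
    ∀ᶠ N : ℕ in atTop, ∀ x : X, |∑ n ∈ Icc 1 N, w n * L n * f (T^[n] x)| ≤ c * N := by
  obtain ⟨c', hc1, hc2⟩ := exists_between hc
  obtain ⟨m, hm, hm1⟩ := ((moving L w hL hw hyp T hent f hf hf1 t ht hc1).and
    (eventually_ge_atTop 1)).exists
  have hm0 : (0 : ℝ) < m := by exact_mod_cast hm1
  have hbig : ∀ᶠ N : ℕ in atTop, 2 * (m : ℝ) / (c - c') ≤ N :=
    tendsto_natCast_atTop_atTop.eventually_ge_atTop _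
  filter_upwards [hm, hbig] with N hN hN2
  intro x
  have h1 := hN (fun n => T^[n] x)
  have hwL : ∀ n, |w n * L n| ≤ 1 := by
    intro n
    rcases hL n with h | h <;> rw [h] <;> simpa using hw n
  have h2 := block_avg (fun n => w n * L n * f (T^[n] x)) (fun n => by
    rw [abs_mul]
    calc |w n * L n| * |f (T^[n] x)| ≤ 1 * 1 :=
          mul_le_mul (hwL n) (hf1 _) (abs_nonneg _) (by norm_num)
      _ = 1 := by norm_num) m N
  have h3 : ∑ n ∈ Icc 1 N, |∑ j : Fin m, w (n + j) * L (n + j) * f (T^[n + (j : ℕ)] x)| =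
      ∑ n ∈ Icc 1 N, |∑ j : Fin m, w (n + j) * L (n + j) * f (T^[(j : ℕ)] (T^[n] x))| := by
    refine sum_congr rfl (fun n _ => ?_)
    congr 1
    refine sum_congr rfl (fun j _ => ?_)
    rw [← Function.iterate_add_apply, add_comm]
  rw [h3] at h2
  have hcc : 0 < c - c' := by linarith
  have h6 : 2 * (m : ℝ) ^ 2 ≤ m * (c - c') * N := by
    rw [div_le_iff₀ hcc] at hN2
    nlinarith
  have h7 : (m : ℝ) * |∑ n ∈ Icc 1 N, w n * L n * f (T^[n] x)| ≤ m * (c * N) := by
    nlinarith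
  exact le_of_mul_le_mul_left h7 hm0

/-- the choice of the parameter for the bound `√(2 h)` -/
lemma choice_sqrt {h c : ℝ} (hc : Real.sqrt (2 * h) < c) :
    ∃ t : ℝ, 0 < t ∧ (h + Real.log (Real.cosh t)) / t < c := by
  obtain ⟨t, ht1, ht2⟩ := exists_between hc
  have ht0 : (0 : ℝ) < t := lt_of_le_of_lt (Real.sqrt_nonneg _) ht1
  have hht : h < t ^ 2 / 2 := by
    have := (Real.sqrt_lt' ht0).1 ht1
    linarith
  refine ⟨t, ht0, ?_⟩
  rw [div_lt_iff₀ ht0]
  have h1 : Real.log (Real.cosh t) ≤ t ^ 2 / 2 := by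
    have := Real.log_le_log (Real.cosh_pos t) (Real.cosh_le_exp_half_sq t)
    rwa [Real.log_exp] at this
  nlinarith

/-- the choice of the parameter if `h < log 2` -/
lemma choice_log {h : ℝ} (hh : h < Real.log 2) :
    ∃ t c : ℝ, 0 < t ∧ c < 1 ∧ (h + Real.log (Real.cosh t)) / t < c := by
  have hlim : Tendsto (fun t : ℝ => (1 + Real.exp (-(2 * t))) / 2) atTop (𝓝 ((1 + 0) / 2)) := by
    refine (tendsto_const_nhds.add ?_).div_const 2
    exact Real.tendsto_exp_neg_atTop_nhds_zero.comp (tendsto_id.const_mul_atTop (by norm_num))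
  have h1 : (1 + 0) / 2 < Real.exp (-h) := by
    have h2 : Real.exp (-Real.log 2) < Real.exp (-h) := Real.exp_lt_exp.2 (by linarith)
    rw [Real.exp_neg, Real.exp_log (by norm_num)] at h2
    linarith
  obtain ⟨t, ht1, ht2⟩ := ((hlim.eventually (gt_mem_nhds h1)).and (eventually_gt_atTop 0)).exists
  have h3 : (h + Real.log (Real.cosh t)) / t < 1 := by
    rw [div_lt_one ht2]
    have e : Real.cosh t = Real.exp t * ((1 + Real.exp (-(2 * t))) / 2) := by
      rw [Real.cosh_eq, mul_div_assoc', mul_add, mul_one, ← Real.exp_add]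
      congr 3
      ring
    rw [e, Real.log_mul (Real.exp_pos t).ne' (by positivity), Real.log_exp]
    have h4 := Real.log_lt_log (by positivity) ht1
    rw [Real.log_exp] at h4
    linarith
  obtain ⟨c, hc1, hc2⟩ := exists_between h3
  exact ⟨t, c, ht2, hc2, hc1⟩

/-- zero entropy, complex functions -/
theorem orbit_zero (L w : ℕ → ℝ) (hL : ∀ n, L n = 1 ∨ L n = -1) (hw : ∀ n, |w n| ≤ 1)
    (hyp : Hyp L w) {X : Type u} [MetricSpace X] [CompactSpace X] (T : X → X)
    (hent : Dynamics.coverEntropy T Set.univ = 0) (f : C(X, ℂ)) {ε : ℝ} (hε : 0 < ε) :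
    ∀ᶠ N : ℕ in atTop, ∀ x : X,
      ‖(1 / (N : ℂ)) * ∑ n ∈ Icc 1 N, f (T^[n] x) * ((w n * L n : ℝ) : ℂ)‖ ≤ ε := by
  obtain ⟨B, hB⟩ : ∃ B : ℝ, ∀ x, ‖f x‖ ≤ B := ⟨‖f‖, fun x => f.norm_coe_le_norm x⟩
  set K : ℝ := |B| + 1 with hK
  have hK0 : 0 < K := by positivity
  have hfK : ∀ x, ‖f x‖ ≤ K := fun x => (hB x).trans ((le_abs_self B).trans (by linarith))
  have hent0 : Dynamics.coverEntropy T Set.univ ≤ ((0 : ℝ) : EReal) := by
    rw [hent]; rfl
  have hc : Real.sqrt (2 * 0) < ε / (2 * K) := by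
    rw [mul_zero, Real.sqrt_zero]; positivity
  obtain ⟨t, ht, htc⟩ := choice_sqrt hc
  have hre := orbit L w hL hw hyp T hent0 (fun x => (f x).re / K)
    (by fun_prop) (fun x => by
      rw [abs_div, abs_of_pos hK0, div_le_one hK0]
      exact (Complex.abs_re_le_norm _).trans (hfK x)) t ht htc
  have him := orbit L w hL hw hyp T hent0 (fun x => (f x).im / K)
    (by fun_prop) (fun x => by
      rw [abs_div, abs_of_pos hK0, div_le_one hK0]
      exact (Complex.abs_im_le_norm _).trans (hfK x)) t ht htc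
  filter_upwards [hre, him, eventually_ge_atTop 1] with N h1 h2 hN
  intro x
  have hN0 : (0 : ℝ) < N := by exact_mod_cast hN
  have g1 := h1 x
  have g2 := h2 x
  have e1 : ∑ n ∈ Icc 1 N, w n * L n * ((f (T^[n] x)).re / K) =
      (∑ n ∈ Icc 1 N, f (T^[n] x) * ((w n * L n : ℝ) : ℂ)).re / K := by
    rw [Complex.re_sum, sum_div]
    refine sum_congr rfl (fun n _ => ?_)
    rw [Complex.re_mul_ofReal]
    ring
  have e2 : ∑ n ∈ Icc 1 N, w n * L n * ((f (T^[n] x)).im / K) =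
      (∑ n ∈ Icc 1 N, f (T^[n] x) * ((w n * L n : ℝ) : ℂ)).im / K := by
    rw [Complex.im_sum, sum_div]
    refine sum_congr rfl (fun n _ => ?_)
    rw [Complex.im_mul_ofReal]
    ring
  rw [e1, abs_div, abs_of_pos hK0, div_le_iff₀ hK0] at g1
  rw [e2, abs_div, abs_of_pos hK0, div_le_iff₀ hK0] at g2
  have g3 := Complex.norm_le_abs_re_add_abs_im (∑ n ∈ Icc 1 N, f (T^[n] x) * ((w n * L n : ℝ) : ℂ))
  have e3 : ε / (2 * K) * N * K = ε * N / 2 := by field_simp
  rw [e3] at g1 g2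
  rw [norm_mul, norm_div, norm_one, Complex.norm_natCast, one_div, inv_mul_le_iff₀ hN0]
  linarith

end Pool.Agent.H12RS
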