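import Mathlib

/-! Exponential moments of correlation sums, and the union bound over words. -/

set_option autoImplicit false

open Finset Filter Topology

namespace Pool.Agent.H12RS

/-- coefficients of the expansion -/
noncomputable def EE (w : ℕ → ℝ) {m : ℕ} (a : Fin m → ℚ) (t : ℚ) (T : Finset (Fin m)) (n : ℕ) : ℝ :=
  (∏ j ∈ T, Real.sinh (t * (w (n + j) * a j))) * ∏ j ∈ univ \ T, Real.cosh (t * (w (n + j) * a j))

/-- the correlation of a block with a word -/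
noncomputable def SW (L w : ℕ → ℝ) {m : ℕ} (a : Fin m → ℚ) (n : ℕ) : ℝ :=
  ∑ j : Fin m, w (n + j) * L (n + j) * a j

/-- the correlations which are supposed to be small -/
def Hyp (L w : ℕ → ℝ) : Prop := ∀ (m : ℕ) (a : Fin m → ℚ) (t : ℚ) (T : Finset (Fin m)), T.Nonempty →
  Tendsto (fun N : ℕ => (∑ n ∈ Icc 1 N, EE w a t T n * ∏ j ∈ T, L (n + j)) / N) atTop (𝓝 0)

lemma exp_expand (L w : ℕ → ℝ) (hL : ∀ n, L n = 1 ∨ L n = -1) {m : ℕ} (a : Fin m → ℚ) (t : ℚ)
    (n : ℕ) : Real.exp (t * SW L w a n) =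
      ∑ T ∈ (univ : Finset (Fin m)).powerset, EE w a t T n * ∏ j ∈ T, L (n + j) := by
  unfold SW
  rw [mul_sum, Real.exp_sum]
  have h1 : ∀ j : Fin m, Real.exp (t * (w (n + j) * L (n + j) * a j)) =
      L (n + j) * Real.sinh (t * (w (n + j) * a j)) + Real.cosh (t * (w (n + j) * a j)) := by
    intro j
    rcases hL (n + j) with h | h
    · rw [h, mul_one, one_mul, Real.sinh_add_cosh]
    · rw [h, show (t : ℝ) * (w (n + j) * -1 * a j) = -(t * (w (n + j) * a j)) by ring,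
        ← Real.cosh_sub_sinh]
      ring
  simp_rw [h1]
  rw [Finset.prod_add]
  refine sum_congr rfl (fun T _ => ?_)
  unfold EE
  rw [prod_mul_distrib]
  ring

lemma EE_empty_le (w : ℕ → ℝ) (hw : ∀ n, |w n| ≤ 1) {m : ℕ} (a : Fin m → ℚ)
    (ha : ∀ j, |(a j : ℝ)| ≤ 1) (t : ℚ) (n : ℕ) : EE w a t ∅ n ≤ Real.cosh t ^ m := by
  unfold EE
  rw [prod_empty, one_mul, sdiff_empty]
  calc ∏ j : Fin m, Real.cosh (t * (w (n + j) * a j)) ≤ ∏ j : Fin m, Real.cosh (t : ℝ) := by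
        refine prod_le_prod (fun j _ => (Real.cosh_pos _).le) (fun j _ => ?_)
        rw [Real.cosh_le_cosh, abs_mul, abs_mul]
        have h1 : |w (n + j)| * |(a j : ℝ)| ≤ 1 := by
          calc |w (n + j)| * |(a j : ℝ)| ≤ 1 * 1 :=
                mul_le_mul (hw _) (ha j) (abs_nonneg _) (by norm_num)
            _ = 1 := by norm_num
        calc |(t : ℝ)| * (|w (n + j)| * |(a j : ℝ)|) ≤ |(t : ℝ)| * 1 :=
              mul_le_mul_of_nonneg_left h1 (abs_nonneg _)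
          _ = |(t : ℝ)| := mul_one _
    _ = Real.cosh t ^ m := by
        rw [prod_const, card_univ, Fintype.card_fin]

lemma exp_avg (L w : ℕ → ℝ) (hL : ∀ n, L n = 1 ∨ L n = -1) (hw : ∀ n, |w n| ≤ 1) (hyp : Hyp L w)
    {m : ℕ} (a : Fin m → ℚ) (ha : ∀ j, |(a j : ℝ)| ≤ 1) (t : ℚ) {ε : ℝ} (hε : 0 < ε) :
    ∀ᶠ N : ℕ in atTop, ∑ n ∈ Icc 1 N, Real.exp (t * SW L w a n) ≤
      (Real.cosh t ^ m + ε) * N := by
  have hlim : Tendsto (fun N : ℕ => ∑ T ∈ (univ : Finset (Fin m)).powerset.erase ∅,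
      (∑ n ∈ Icc 1 N, EE w a t T n * ∏ j ∈ T, L (n + j)) / N) atTop (𝓝 0) := by
    have := tendsto_finsetSum ((univ : Finset (Fin m)).powerset.erase ∅)
      (fun T hT => hyp m a t T (Finset.nonempty_iff_ne_empty.2 (Finset.ne_of_mem_erase hT)))
    simpa using this
  filter_upwards [hlim.eventually (gt_mem_nhds hε), eventually_ge_atTop 1] with N hN hN1
  have hN0 : (0 : ℝ) < N := by exact_mod_cast hN1
  have e1 : ∑ n ∈ Icc 1 N, Real.exp (t * SW L w a n) =
      ∑ n ∈ Icc 1 N, EE w a t ∅ n +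
        ∑ T ∈ (univ : Finset (Fin m)).powerset.erase ∅, ∑ n ∈ Icc 1 N, EE w a t T n * ∏ j ∈ T, L (n + j) := by
    rw [sum_comm, ← sum_add_distrib]
    refine sum_congr rfl (fun n _ => ?_)
    rw [exp_expand L w hL a t n, ← add_sum_erase _ _ (empty_mem_powerset _)]
    simp
  have e2 : ∑ T ∈ (univ : Finset (Fin m)).powerset.erase ∅,
      ∑ n ∈ Icc 1 N, EE w a t T n * ∏ j ∈ T, L (n + j) =
      (∑ T ∈ (univ : Finset (Fin m)).powerset.erase ∅,
        (∑ n ∈ Icc 1 N, EE w a t T n * ∏ j ∈ T, L (n + j)) / N) * N := by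
    rw [sum_mul]
    refine sum_congr rfl (fun T _ => ?_)
    rw [div_mul_cancel₀ _ hN0.ne']
  rw [e1, e2]
  have h3 : ∑ n ∈ Icc 1 N, EE w a t ∅ n ≤ Real.cosh t ^ m * N := by
    calc ∑ n ∈ Icc 1 N, EE w a t ∅ n ≤ ∑ n ∈ Icc 1 N, Real.cosh t ^ m :=
          sum_le_sum (fun n _ => EE_empty_le w hw a ha t n)
      _ = _ := by simp; ring
  nlinarith

/-- the union bound over a finite set of words -/
lemma words (L w : ℕ → ℝ) (hL : ∀ n, L n = 1 ∨ L n = -1) (hw : ∀ n, |w n| ≤ 1) (hyp : Hyp L w)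
    {m : ℕ} (W : Finset (Fin m → ℚ)) (hW : W.Nonempty) (ha : ∀ a ∈ W, ∀ j, |(a j : ℝ)| ≤ 1)
    (t : ℚ) (ht : 0 < t) {ε : ℝ} (hε : 0 < ε) :
    ∀ᶠ N : ℕ in atTop, ∀ M : ℕ → ℝ, (∀ n, ∃ a ∈ W, M n ≤ |SW L w a n|) →
      ∑ n ∈ Icc 1 N, M n ≤ (1 / (t : ℝ)) *
        (Real.log (2 * W.card) + m * Real.log (Real.cosh t) + ε) * N := by
  set E := Real.cosh t ^ m with hE
  have hE0 : 0 < E := pow_pos (Real.cosh_pos _) _
  have hE1 : 1 ≤ E := one_le_pow₀ (Real.one_le_cosh _)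
  have htr : (0 : ℝ) < t := by exact_mod_cast ht
  have hc0 : (0 : ℝ) < W.card := by exact_mod_cast hW.card_pos
  have h1 : ∀ᶠ N : ℕ in atTop, ∀ a ∈ W,
      (∑ n ∈ Icc 1 N, Real.exp (t * SW L w a n) ≤ (E + ε) * N) ∧
      (∑ n ∈ Icc 1 N, Real.exp (-(t * SW L w a n)) ≤ (E + ε) * N) := by
    rw [Filter.eventually_all_finset]
    intro a haW
    filter_upwards [exp_avg L w hL hw hyp a (ha a haW) t hε,
      exp_avg L w hL hw hyp a (ha a haW) (-t) hε] with N u1 u2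
    refine ⟨u1, ?_⟩
    have e3 : (((-t : ℚ)) : ℝ) = -(t : ℝ) := by push_cast; ring
    rw [e3, Real.cosh_neg] at u2
    simp only [neg_mul] at u2
    exact u2
  filter_upwards [h1, eventually_ge_atTop 1] with N hN hN1
  intro M hM
  have hN0 : (0 : ℝ) < N := by exact_mod_cast hN1
  set K : ℝ := 2 * W.card * E with hK
  have hK0 : 0 < K := by positivity
  have hpt : ∀ n, (t : ℝ) * M n ≤ Real.log K - 1 + (1 / K) *
      ∑ a ∈ W, (Real.exp (t * SW L w a n) + Real.exp (-(t * SW L w a n))) := by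
    intro n
    obtain ⟨a, haW, hMa⟩ := hM n
    have h2 : Real.exp (t * M n) ≤
        ∑ a ∈ W, (Real.exp (t * SW L w a n) + Real.exp (-(t * SW L w a n))) := by
      have h3 : Real.exp (t * M n) ≤ Real.exp (t * SW L w a n) + Real.exp (-(t * SW L w a n)) := by
        have h4 : (t : ℝ) * M n ≤ |t * SW L w a n| := by
          rw [abs_mul, abs_of_pos htr]
          exact mul_le_mul_of_nonneg_left hMa htr.le
        have h5 := Real.exp_le_exp.2 h4
        refine h5.trans ?_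
        rcases abs_cases ((t : ℝ) * SW L w a n) with ⟨h6, _⟩ | ⟨h6, _⟩
        · rw [h6]
          linarith [Real.exp_pos (-((t : ℝ) * SW L w a n))]
        · rw [h6]
          linarith [Real.exp_pos ((t : ℝ) * SW L w a n)]
      refine h3.trans ?_
      exact single_le_sum (f := fun a => Real.exp (t * SW L w a n) + Real.exp (-(t * SW L w a n)))
        (fun b _ => by positivity) haW
    have h7 : Real.log (Real.exp (t * M n) / K) ≤ Real.exp (t * M n) / K - 1 :=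
      Real.log_le_sub_one_of_pos (by positivity)
    rw [Real.log_div (Real.exp_pos _).ne' hK0.ne', Real.log_exp] at h7
    have h8 : Real.exp (t * M n) / K ≤ (1 / K) *
        ∑ a ∈ W, (Real.exp (t * SW L w a n) + Real.exp (-(t * SW L w a n))) := by
      rw [div_eq_inv_mul, one_div]
      exact mul_le_mul_of_nonneg_left h2 (by positivity)
    linarith
  have hsum := sum_le_sum (fun n (_ : n ∈ Icc 1 N) => hpt n)
  rw [← mul_sum, sum_add_distrib, ← mul_sum, sum_comm] at hsum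
  have h9 : ∑ a ∈ W, ∑ n ∈ Icc 1 N, (Real.exp (t * SW L w a n) + Real.exp (-(t * SW L w a n))) ≤
      W.card * (2 * ((E + ε) * N)) := by
    calc ∑ a ∈ W, ∑ n ∈ Icc 1 N, (Real.exp (t * SW L w a n) + Real.exp (-(t * SW L w a n)))
        ≤ ∑ a ∈ W, (2 * ((E + ε) * N)) := by
          refine sum_le_sum (fun a haW => ?_)
          rw [sum_add_distrib]
          linarith [(hN a haW).1, (hN a haW).2]
      _ = _ := by rw [sum_const, nsmul_eq_mul]
  have h10 : (1 / K) * ∑ a ∈ W, ∑ n ∈ Icc 1 N,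
      (Real.exp (t * SW L w a n) + Real.exp (-(t * SW L w a n))) ≤ (1 + ε) * N := by
    calc (1 / K) * ∑ a ∈ W, ∑ n ∈ Icc 1 N,
        (Real.exp (t * SW L w a n) + Real.exp (-(t * SW L w a n)))
        ≤ (1 / K) * (W.card * (2 * ((E + ε) * N))) :=
          mul_le_mul_of_nonneg_left h9 (by positivity)
      _ = (1 + ε / E) * N := by rw [hK]; field_simp
      _ ≤ (1 + ε) * N := by
          have : ε / E ≤ ε := div_le_self hε.le hE1
          nlinarith
  have hlogK : Real.log K = Real.log (2 * W.card) + m * Real.log (Real.cosh t) := by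
    rw [hK, Real.log_mul (by positivity) hE0.ne', hE, Real.log_pow]
  have hconst : ∑ n ∈ Icc 1 N, (Real.log K - 1) = (Real.log K - 1) * N := by simp; ring
  rw [hconst] at hsum
  have h11 : (t : ℝ) * ∑ n ∈ Icc 1 N, M n ≤ (Real.log K + ε) * N := by nlinarith
  rw [hlogK] at h11
  have h12 : ∑ n ∈ Icc 1 N, M n = (1 / (t : ℝ)) * ((t : ℝ) * ∑ n ∈ Icc 1 N, M n) := by
    field_simp
  rw [h12, mul_assoc]
  exact mul_le_mul_of_nonneg_left h11 (by positivity)

lemma tele (v : ℕ → ℝ) (N : ℕ) :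
    ∑ n ∈ Icc 1 N, v n - ∑ n ∈ Icc 1 N, v (n + 1) = v 1 - v (N + 1) := by
  induction N with
  | zero => simp
  | succ N ih =>
    rw [sum_Icc_succ_top (by omega), sum_Icc_succ_top (by omega)]
    linarith

lemma shift_le (u : ℕ → ℝ) (hu : ∀ n, |u n| ≤ 1) (N j : ℕ) :
    |∑ n ∈ Icc 1 N, u n - ∑ n ∈ Icc 1 N, u (n + j)| ≤ 2 * j := by
  induction j with
  | zero => simp
  | succ j ih =>
    have h1 := tele (fun n => u (n + j)) N
    have h2 : ∀ n, u (n + (j + 1)) = u (n + 1 + j) := fun n => by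
      congr 1; ring
    simp_rw [h2]
    have h3 := abs_le.1 ih
    have h4 := abs_le.1 (hu (1 + j))
    have h5 := abs_le.1 (hu (N + 1 + j))
    rw [abs_le]
    push_cast
    constructor <;> linarith [h3.1, h3.2, h4.1, h4.2, h5.1, h5.2]

/-- the sum over shifted blocks -/
lemma block_avg (u : ℕ → ℝ) (hu : ∀ n, |u n| ≤ 1) (m : ℕ) (N : ℕ) :
    (m : ℝ) * |∑ n ∈ Icc 1 N, u n| ≤
      ∑ n ∈ Icc 1 N, |∑ j : Fin m, u (n + j)| + 2 * (m : ℝ) ^ 2 := by
  have h1 : (m : ℝ) * ∑ n ∈ Icc 1 N, u n = ∑ n ∈ Icc 1 N, ∑ j : Fin m, u (n + j) +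
      ∑ j : Fin m, (∑ n ∈ Icc 1 N, u n - ∑ n ∈ Icc 1 N, u (n + j)) := by
    rw [sum_comm, ← sum_add_distrib]
    simp
  have h2 : |∑ j : Fin m, (∑ n ∈ Icc 1 N, u n - ∑ n ∈ Icc 1 N, u (n + j))| ≤ 2 * (m : ℝ) ^ 2 := by
    refine (abs_sum_le_sum_abs _ _).trans ?_
    calc ∑ j : Fin m, |∑ n ∈ Icc 1 N, u n - ∑ n ∈ Icc 1 N, u (n + j)| ≤ ∑ j : Fin m, (2 * (m : ℝ)) := by
          refine sum_le_sum (fun j _ => (shift_le u hu N j).trans ?_)
          have : ((j : ℕ) : ℝ) ≤ m := by exact_mod_cast j.2.le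
          linarith
      _ = 2 * (m : ℝ) ^ 2 := by simp; ring
  rw [← abs_of_nonneg (Nat.cast_nonneg (α := ℝ) m), ← abs_mul, h1]
  rw [abs_of_nonneg (Nat.cast_nonneg (α := ℝ) m)]
  exact (abs_add_le _ _).trans (add_le_add (abs_sum_le_sum_abs _ _) h2)

end Pool.Agent.H12RS
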