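import Pool.Agent.H12RS.Cnt

/-! Two facts on operators of a finite dimensional Hilbert space. -/

set_option autoImplicit false

open Finset

namespace Pool.Agent.H12RS

/-- the matrix algebra -/
abbrev Mk (k : ℕ) : Type := EuclideanSpace ℂ (Fin k) →L[ℂ] EuclideanSpace ℂ (Fin k)

/-- the real part of the trace -/
noncomputable def tau {k : ℕ} (B : Mk k) : ℝ :=
  ∑ i : Fin k, (inner ℂ (EuclideanSpace.basisFun (Fin k) ℂ i) (B (EuclideanSpace.basisFun (Fin k) ℂ i))).re

lemma tau_smul {k : ℕ} (r : ℝ) (B : Mk k) : tau (r • B) = r * tau B := by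
  unfold tau
  rw [mul_sum]
  refine sum_congr rfl (fun i _ => ?_)
  have : (r • B) (EuclideanSpace.basisFun (Fin k) ℂ i) =
      (r : ℂ) • B (EuclideanSpace.basisFun (Fin k) ℂ i) := by
    simp
  rw [this, inner_smul_right, Complex.re_ofReal_mul]

lemma tau_sum {k : ℕ} {ι : Type*} (s : Finset ι) (B : ι → Mk k) :
    tau (∑ i ∈ s, B i) = ∑ i ∈ s, tau (B i) := by
  unfold tau
  rw [sum_comm]
  refine sum_congr rfl (fun i _ => ?_)
  rw [_root_.sum_apply, inner_sum, Complex.re_sum]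

lemma abs_tau_le {k : ℕ} (B : Mk k) : |tau B| ≤ k * ‖B‖ := by
  unfold tau
  refine (abs_sum_le_sum_abs _ _).trans ?_
  calc ∑ i : Fin k, |(inner ℂ (EuclideanSpace.basisFun (Fin k) ℂ i)
        (B (EuclideanSpace.basisFun (Fin k) ℂ i))).re| ≤ ∑ i : Fin k, ‖B‖ := by
        refine sum_le_sum (fun i _ => ?_)
        refine (Complex.abs_re_le_norm _).trans ((norm_inner_le_norm _ _).trans ?_)
        have h1 : ‖EuclideanSpace.basisFun (Fin k) ℂ i‖ = 1 :=
          (EuclideanSpace.basisFun (Fin k) ℂ).norm_eq_one i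
        rw [h1, one_mul]
        have := B.le_opNorm (EuclideanSpace.basisFun (Fin k) ℂ i)
        rwa [h1, mul_one] at this
    _ = k * ‖B‖ := by simp

lemma norm_sq_le_tau {k : ℕ} (D : Mk k) : ‖D‖ ^ 2 ≤ tau (star D * D) := by
  set e := EuclideanSpace.basisFun (Fin k) ℂ with he
  have h1 : tau (star D * D) = ∑ i : Fin k, ‖D (e i)‖ ^ 2 := by
    unfold tau
    refine sum_congr rfl (fun i _ => ?_)
    rw [← he, ContinuousLinearMap.star_eq_adjoint, ContinuousLinearMap.mul_apply,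
      ContinuousLinearMap.adjoint_inner_right]
    rw [inner_self_eq_norm_sq_to_K]
    norm_cast
  rw [h1]
  have h0 : 0 ≤ ∑ i : Fin k, ‖D (e i)‖ ^ 2 := sum_nonneg (fun i _ => sq_nonneg _)
  have h2 : ‖D‖ ≤ Real.sqrt (∑ i : Fin k, ‖D (e i)‖ ^ 2) := by
    refine ContinuousLinearMap.opNorm_le_bound _ (Real.sqrt_nonneg _) (fun v => ?_)
    have h3 : D v = ∑ i : Fin k, (v i) • D (e i) := by
      conv_lhs => rw [← e.sum_repr v]
      rw [map_sum]
      refine sum_congr rfl (fun i _ => ?_)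
      rw [map_smul]
      simp [he]
    rw [h3]
    refine (norm_sum_le _ _).trans ?_
    have h4 : ∑ i : Fin k, ‖(v i) • D (e i)‖ = ∑ i : Fin k, ‖D (e i)‖ * ‖v i‖ :=
      sum_congr rfl (fun i _ => by rw [norm_smul, mul_comm])
    rw [h4, EuclideanSpace.norm_eq]
    have h5 := Finset.sum_mul_sq_le_sq_mul_sq (univ : Finset (Fin k)) (fun i => ‖D (e i)‖)
      (fun i => ‖v i‖)
    have h6 : 0 ≤ ∑ i : Fin k, ‖D (e i)‖ * ‖v i‖ :=
      sum_nonneg (fun i _ => mul_nonneg (norm_nonneg _) (norm_nonneg _))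
    rw [← Real.sqrt_mul h0]
    exact Real.le_sqrt_of_sq_le h5
  calc ‖D‖ ^ 2 ≤ Real.sqrt (∑ i : Fin k, ‖D (e i)‖ ^ 2) ^ 2 :=
        pow_le_pow_left₀ (norm_nonneg _) h2 2
    _ = _ := Real.sq_sqrt h0

/-- the power trick -/
lemma norm_pow_le_tau {k : ℕ} (S : Mk k) (r : ℕ) :
    ‖S‖ ^ (2 * 2 ^ (r + 1)) ≤ tau ((star S * S) ^ (2 ^ (r + 1))) := by
  have hsa : IsSelfAdjoint (star S * S) := IsSelfAdjoint.star_mul_self S
  have h1 : ‖(star S * S) ^ (2 ^ r)‖ = ‖S‖ ^ (2 * 2 ^ r) := by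
    have h2 := IsSelfAdjoint.nnnorm_pow_two_pow (E := Mk k) (x := star S * S) hsa r
    have h3 : ‖(star S * S) ^ (2 ^ r)‖ = ‖star S * S‖ ^ (2 ^ r) := by
      have h2' := congrArg NNReal.toReal h2
      rwa [NNReal.coe_pow, coe_nnnorm, coe_nnnorm] at h2'
    have h3' : ‖star S * S‖ = ‖S‖ * ‖S‖ := CStarRing.norm_star_mul_self (E := Mk k)
    rw [h3, h3', ← pow_two, ← pow_mul]
  have h4 := norm_sq_le_tau ((star S * S) ^ (2 ^ r))
  have h5 : star ((star S * S) ^ (2 ^ r)) * (star S * S) ^ (2 ^ r) =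
      (star S * S) ^ (2 ^ (r + 1)) := by
    rw [show star ((star S * S) ^ (2 ^ r)) = (star S * S) ^ (2 ^ r) from
      (IsSelfAdjoint.pow (R := Mk k) hsa (2 ^ r)).star_eq, ← pow_add]
    congr 1
    ring
  rw [h5, h1] at h4
  refine le_trans (le_of_eq ?_) h4
  rw [← pow_mul]
  congr 1
  ring

lemma star_rsmul {k : ℕ} (r : ℝ) (S : Mk k) : star (r • S) = r • star S := by
  have h1 : ∀ B : Mk k, r • B = (r : ℂ) • B := fun B => by
    ext v
    simp
  rw [h1, h1]
  have := star_smul (R := ℂ) (A := Mk k) (r : ℂ) S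
  rw [this, Complex.star_def, Complex.conj_ofReal]

/-- alternating families -/
noncomputable def alt {k m : ℕ} (a : Fin m → Mk k) (i : ℕ) (j : Fin m) : Mk k :=
  if Even i then star (a j) else a j

lemma prodSum_alt {k m : ℕ} (a : Fin m → Mk k) (z : Fin m → ℝ) (p : ℕ) :
    prodSum (alt a) z (2 * p) = (star (∑ j, z j • a j) * ∑ j, z j • a j) ^ p := by
  induction p with
  | zero => simp [prodSum]
  | succ p ih =>
    rw [show 2 * (p + 1) = 2 * p + 1 + 1 by ring, prodSum, prodSum, ih, pow_succ]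
    have e1 : ∑ j, z j • alt a (2 * p) j = star (∑ j, z j • a j) := by
      rw [star_sum (R := Mk k) univ (fun j => z j • a j)]
      refine sum_congr rfl (fun j _ => ?_)
      unfold alt
      rw [if_pos (even_two_mul p), star_rsmul]
    have e2 : ∑ j, z j • alt a (2 * p + 1) j = ∑ j, z j • a j := by
      refine sum_congr rfl (fun j _ => ?_)
      unfold alt
      rw [if_neg (by simp)]
    rw [e1, e2, mul_assoc]

/-- the even moment as a sum over words -/
lemma tau_expand {k m : ℕ} (a : Fin m → Mk k) (z : Fin m → ℝ) (p : ℕ) :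
    tau ((star (∑ j, z j • a j) * ∑ j, z j • a j) ^ p) =
      ∑ s : Fin (2 * p) → Fin m, (∏ i, z (s i)) * tau (wordProd (alt a) (2 * p) s) := by
  rw [← prodSum_alt, prodSum_eq, tau_sum]
  exact sum_congr rfl (fun s _ => tau_smul _ _)

lemma abs_tau_word {k m : ℕ} (a : Fin m → Mk k) (ha : ∀ j, ‖a j‖ ≤ 1) (q : ℕ) (s : Fin q → Fin m) :
    |tau (wordProd (alt a) q s)| ≤ k := by
  refine (abs_tau_le _).trans ?_
  have h1 : ‖wordProd (alt a) q s‖ ≤ 1 := by
    refine norm_wordProd _ ContinuousLinearMap.norm_id_le (fun i j => ?_) q s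
    unfold alt
    split_ifs
    · exact (norm_star (a j)).trans_le (ha j)
    · exact ha j
  calc (k : ℝ) * ‖wordProd (alt a) q s‖ ≤ k * 1 :=
        mul_le_mul_of_nonneg_left h1 (Nat.cast_nonneg k)
    _ = k := mul_one _

end Pool.Agent.H12RS
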