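import Pool.Agent.H12RS.Hil

/-! The average of the norms of correlations with matrices. -/

set_option autoImplicit false

open Finset Filter Topology

namespace Pool.Agent.H12RS

/-- the correlations which are supposed to be small -/
def Hyp2 (L w : ℕ → ℝ) : Prop := ∀ (q m : ℕ) (s : Fin q → Fin m), ¬ EvenWord s →
  Tendsto (fun N : ℕ => (∑ n ∈ Icc 1 N, ∏ i, (w (n + s i) * L (n + s i))) / N) atTop (𝓝 0)

open Classical in
lemma mat_moment (L w : ℕ → ℝ) (hwL : ∀ n, |w n * L n| ≤ 1) (hyp : Hyp2 L w) {k m : ℕ} (r : ℕ)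
    (a : Fin m → Mk k) (ha : ∀ j, ‖a j‖ ≤ 1) :
    ∀ᶠ N : ℕ in atTop, ∑ n ∈ Icc 1 N,
      ‖∑ j : Fin m, (w (n + j) * L (n + j)) • a j‖ ^ (2 * 2 ^ (r + 1)) ≤
      (k * (((univ : Finset (Fin (2 * 2 ^ (r + 1)) → Fin m)).filter EvenWord).card : ℝ) + 1) * N := by
  set p := 2 ^ (r + 1) with hp
  set c : (Fin (2 * p) → Fin m) → ℝ := fun s => tau (wordProd (alt a) (2 * p) s) with hc
  set V : (Fin (2 * p) → Fin m) → ℕ → ℝ := fun s N =>
    ∑ n ∈ Icc 1 N, ∏ i, (w (n + s i) * L (n + s i)) with hV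
  have hc1 : ∀ s, |c s| ≤ k := fun s => abs_tau_word a ha _ s
  have hlim : Tendsto (fun N : ℕ => ∑ s ∈ (univ : Finset (Fin (2 * p) → Fin m)).filter
      (fun s => ¬ EvenWord s), c s * (V s N / N)) atTop (𝓝 0) := by
    have := tendsto_finsetSum ((univ : Finset (Fin (2 * p) → Fin m)).filter (fun s => ¬ EvenWord s))
      (fun s hs => (hyp (2 * p) m s (mem_filter.1 hs).2).const_mul (c s))
    simpa using this
  filter_upwards [hlim.eventually (gt_mem_nhds one_pos), eventually_ge_atTop 1] with N hN hN1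
  have hN0 : (0 : ℝ) < N := by exact_mod_cast hN1
  have h1 : ∑ n ∈ Icc 1 N, ‖∑ j : Fin m, (w (n + j) * L (n + j)) • a j‖ ^ (2 * p) ≤
      ∑ s : Fin (2 * p) → Fin m, c s * V s N := by
    have h2 : ∀ n ∈ Icc 1 N, ‖∑ j : Fin m, (w (n + j) * L (n + j)) • a j‖ ^ (2 * p) ≤
        ∑ s : Fin (2 * p) → Fin m, (∏ i, (w (n + s i) * L (n + s i))) * c s := by
      intro n _
      refine (norm_pow_le_tau _ r).trans (le_of_eq ?_)
      exact tau_expand a (fun j => w (n + j) * L (n + j)) p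
    refine (sum_le_sum h2).trans (le_of_eq ?_)
    rw [sum_comm]
    refine sum_congr rfl (fun s _ => ?_)
    rw [hV]
    simp only
    rw [mul_sum]
    exact sum_congr rfl (fun n _ => mul_comm _ _)
  refine h1.trans ?_
  rw [← sum_filter_add_sum_filter_not (univ : Finset (Fin (2 * p) → Fin m)) EvenWord]
  have h3 : ∑ s ∈ (univ : Finset (Fin (2 * p) → Fin m)).filter EvenWord, c s * V s N ≤
      k * (((univ : Finset (Fin (2 * p) → Fin m)).filter EvenWord).card : ℝ) * N := by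
    calc ∑ s ∈ (univ : Finset (Fin (2 * p) → Fin m)).filter EvenWord, c s * V s N
        ≤ ∑ s ∈ (univ : Finset (Fin (2 * p) → Fin m)).filter EvenWord, (k : ℝ) * N := by
          refine sum_le_sum (fun s _ => ?_)
          have hVN : |V s N| ≤ N := by
            rw [hV]
            simp only
            refine (abs_sum_le_sum_abs _ _).trans ?_
            calc ∑ n ∈ Icc 1 N, |∏ i, (w (n + s i) * L (n + s i))| ≤ ∑ n ∈ Icc 1 N, (1 : ℝ) := by
                  refine sum_le_sum (fun n _ => ?_)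
                  rw [Finset.abs_prod]
                  exact prod_le_one (fun i _ => abs_nonneg _) (fun i _ => hwL _)
              _ = N := by simp
          calc c s * V s N ≤ |c s * V s N| := le_abs_self _
            _ = |c s| * |V s N| := abs_mul _ _
            _ ≤ k * N := mul_le_mul (hc1 s) hVN (abs_nonneg _) (Nat.cast_nonneg k)
      _ = _ := by rw [sum_const, nsmul_eq_mul]; ring
  have h4 : ∑ s ∈ (univ : Finset (Fin (2 * p) → Fin m)).filter (fun s => ¬ EvenWord s),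
      c s * V s N ≤ 1 * N := by
    have h5 : ∑ s ∈ (univ : Finset (Fin (2 * p) → Fin m)).filter (fun s => ¬ EvenWord s),
      c s * V s N = (∑ s ∈ (univ : Finset (Fin (2 * p) → Fin m)).filter
      (fun s => ¬ EvenWord s), c s * (V s N / N)) * N := by
      rw [sum_mul]
      refine sum_congr rfl (fun s _ => ?_)
      field_simp
    rw [h5]
    exact mul_le_mul_of_nonneg_right hN.le hN0.le
  linarith

/-- the average of the norms -/
lemma mat_avg (L w : ℕ → ℝ) (hwL : ∀ n, |w n * L n| ≤ 1) (hyp : Hyp2 L w) {k m : ℕ} (hm : 1 ≤ m)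
    {h : ℝ} (hh : 1 ≤ h * m) (hk : (k : ℝ) ≤ Real.exp (h * m))
    (a : Fin m → Mk k) (ha : ∀ j, ‖a j‖ ≤ 1) :
    ∀ᶠ N : ℕ in atTop, ∑ n ∈ Icc 1 N, ‖∑ j : Fin m, (w (n + j) * L (n + j)) • a j‖ ≤
      24 * Real.sqrt h * m * N := by
  classical
  have hm0 : (0 : ℝ) < m := by exact_mod_cast hm
  have hh0 : 0 < h := by
    by_contra hcon
    push Not at hcon
    nlinarith
  obtain ⟨r, hr1, hr2⟩ := exists_nat_pow_near hh (show (1 : ℝ) < 2 by norm_num)
  obtain ⟨p, hp⟩ : ∃ p : ℕ, p = 2 ^ (r + 1) := ⟨_, rfl⟩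
  have hp1 : 1 ≤ p := by rw [hp]; exact Nat.one_le_two_pow
  have hpr : (p : ℝ) = 2 ^ (r + 1) := by rw [hp]; push_cast; rfl
  have hp0 : (0 : ℝ) < p := by exact_mod_cast hp1
  have hph : h * m ≤ p := by rw [hpr]; exact hr2.le
  have hph2 : (p : ℝ) ≤ 2 * (h * m) := by rw [hpr, pow_succ]; linarith
  have hcnt := even_count_le p m hp1 hm
  obtain ⟨e, he⟩ : ∃ e : ℝ, e = Real.exp 1 := ⟨_, rfl⟩
  have he0 : 0 < e := by rw [he]; exact Real.exp_pos _
  have he1 : 1 ≤ e := by rw [he]; exact Real.one_le_exp (by norm_num)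
  have he3 : e ≤ 2.7182818286 := by rw [he]; exact Real.exp_one_lt_d9.le
  obtain ⟨A, hA⟩ : ∃ A : ℝ, A = Real.sqrt (4 * e ^ 2 * p * m) := ⟨_, rfl⟩
  have hA0 : 0 < A := by rw [hA]; exact Real.sqrt_pos.2 (by positivity)
  have hA2 : A ^ 2 = 4 * e ^ 2 * p * m := by rw [hA]; exact Real.sq_sqrt (by positivity)
  have hA2p : A ^ (2 * p) = (4 * e ^ 2 * p * m) ^ p := by rw [pow_mul, hA2]
  have hkp : (k : ℝ) ≤ e ^ p := by
    refine hk.trans ?_
    rw [he, ← Real.exp_nat_mul, mul_one]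
    exact Real.exp_le_exp.2 hph
  have hbig : (k : ℝ) * (((univ : Finset (Fin (2 * p) → Fin m)).filter EvenWord).card : ℝ) + 1 ≤
      2 * A ^ (2 * p) := by
    have h1 : (k : ℝ) * (((univ : Finset (Fin (2 * p) → Fin m)).filter EvenWord).card : ℝ) ≤
        e ^ p * (2 * (2 * p * e * m) ^ p) := by
      refine mul_le_mul hkp ?_ (Nat.cast_nonneg _) (by positivity)
      rw [he]; exact hcnt
    have h2 : e ^ p * (2 * (2 * p * e * m) ^ p) ≤ A ^ (2 * p) := by
      rw [hA2p]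
      have h3 : (2 : ℝ) ≤ 2 ^ p := by
        calc (2 : ℝ) = 2 ^ 1 := (pow_one _).symm
          _ ≤ 2 ^ p := pow_le_pow_right₀ (by norm_num) hp1
      calc e ^ p * (2 * (2 * p * e * m) ^ p) ≤ e ^ p * (2 ^ p * (2 * p * e * m) ^ p) := by gcongr
        _ = (4 * e ^ 2 * p * m) ^ p := by
          rw [← mul_pow, ← mul_pow]; congr 1; ring
    have h4 : 1 ≤ A ^ (2 * p) := by
      rw [hA2p]
      apply one_le_pow₀
      have hm1 : (1 : ℝ) ≤ m := by exact_mod_cast hm
      have hp1' : (1 : ℝ) ≤ p := by exact_mod_cast hp1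
      have : 1 ≤ e ^ 2 := one_le_pow₀ he1
      have h5 : 1 ≤ e ^ 2 * p := by nlinarith
      have h6 : 1 ≤ e ^ 2 * p * m := by nlinarith
      nlinarith
    linarith
  have hA3 : 3 * A ≤ 24 * Real.sqrt h * m := by
    have h1 : A ≤ 8 * Real.sqrt h * m := by
      rw [hA]
      apply Real.sqrt_le_iff.2
      refine ⟨by positivity, ?_⟩
      have h2 : (8 * Real.sqrt h * m) ^ 2 = 64 * h * m ^ 2 := by
        rw [mul_pow, mul_pow, Real.sq_sqrt hh0.le]; norm_num
      rw [h2]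
      have h3 : e ^ 2 ≤ 8 := by nlinarith
      calc 4 * e ^ 2 * p * m ≤ 4 * 8 * (2 * (h * m)) * m := by gcongr
        _ = 64 * h * m ^ 2 := by ring
    linarith
  have hmom := mat_moment L w hwL hyp r a ha
  rw [← hp] at hmom
  filter_upwards [hmom] with N hN
  have hN0 : (0 : ℝ) ≤ N := Nat.cast_nonneg N
  have hpt : ∀ x : ℝ, 0 ≤ x → x ≤ A + (A / A ^ (2 * p)) * x ^ (2 * p) := by
    intro x hx
    have h0 : (A / A ^ (2 * p)) * x ^ (2 * p) = A * (x / A) ^ (2 * p) := by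
      rw [div_pow]; field_simp
    rw [h0]
    rcases le_total x A with h1 | h1
    · have : 0 ≤ A * (x / A) ^ (2 * p) := by positivity
      linarith
    · have h2 : 1 ≤ x / A := by rwa [le_div_iff₀ hA0, one_mul]
      have h3 : x / A ≤ (x / A) ^ (2 * p) := by
        calc x / A = (x / A) ^ 1 := (pow_one _).symm
          _ ≤ (x / A) ^ (2 * p) := pow_le_pow_right₀ h2 (by omega)
      have h4 : A * (x / A) = x := by field_simp
      nlinarith
  have h1 : ∑ n ∈ Icc 1 N, ‖∑ j : Fin m, (w (n + j) * L (n + j)) • a j‖ ≤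
      A * N + (A / A ^ (2 * p)) * ∑ n ∈ Icc 1 N,
        ‖∑ j : Fin m, (w (n + j) * L (n + j)) • a j‖ ^ (2 * p) := by
    refine (sum_le_sum (fun n _ => hpt _ (norm_nonneg _))).trans (le_of_eq ?_)
    rw [sum_add_distrib, ← mul_sum]
    simp
    ring
  have h2 : (A / A ^ (2 * p)) * ∑ n ∈ Icc 1 N,
        ‖∑ j : Fin m, (w (n + j) * L (n + j)) • a j‖ ^ (2 * p) ≤ 2 * A * N := by
    calc (A / A ^ (2 * p)) * ∑ n ∈ Icc 1 N,
        ‖∑ j : Fin m, (w (n + j) * L (n + j)) • a j‖ ^ (2 * p)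
        ≤ (A / A ^ (2 * p)) * ((2 * A ^ (2 * p)) * N) := by
          refine mul_le_mul_of_nonneg_left (hN.trans ?_) (by positivity)
          exact mul_le_mul_of_nonneg_right hbig hN0
      _ = 2 * A * N := by field_simp
  nlinarith

end Pool.Agent.H12RS
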