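import Pool.Agent.H12RS.Dyn
import Pool.Agent.H629Chowla.Lam

/-! The correlations which are needed are small almost surely. -/

set_option autoImplicit false

open Finset Filter Topology MeasureTheory ProbabilityTheory

namespace Pool.Agent.H12RS

lemma abs_sinh_le (x : ℝ) : |Real.sinh x| ≤ Real.exp |x| := by
  rw [Real.abs_sinh, Real.sinh_eq]
  have h1 := Real.exp_pos (-|x|)
  have h2 := Real.exp_pos |x|
  linarith

lemma abs_cosh_le (x : ℝ) : |Real.cosh x| ≤ Real.exp |x| := by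
  rw [abs_of_pos (Real.cosh_pos _), ← Real.cosh_abs, Real.cosh_eq]
  have h1 : Real.exp (-|x|) ≤ Real.exp |x| := Real.exp_le_exp.2 (by linarith [abs_nonneg x])
  linarith

lemma abs_EE_le (w : ℕ → ℝ) (hw : ∀ n, |w n| ≤ 1) {m : ℕ} (a : Fin m → ℚ) (t : ℚ)
    (T : Finset (Fin m)) (n : ℕ) :
    |EE w a t T n| ≤ Real.exp (∑ j : Fin m, |(t : ℝ)| * |(a j : ℝ)|) := by
  have hx : ∀ j : Fin m, |(t : ℝ) * (w (n + j) * a j)| ≤ |(t : ℝ)| * |(a j : ℝ)| := by
    intro j
    rw [abs_mul, abs_mul]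
    have h1 : |w (n + j)| * |(a j : ℝ)| ≤ 1 * |(a j : ℝ)| :=
      mul_le_mul_of_nonneg_right (hw _) (abs_nonneg _)
    rw [one_mul] at h1
    exact mul_le_mul_of_nonneg_left h1 (abs_nonneg _)
  unfold EE
  rw [abs_mul, Finset.abs_prod, Finset.abs_prod]
  have h1 : ∏ j ∈ T, |Real.sinh (t * (w (n + j) * a j))| ≤
      ∏ j ∈ T, Real.exp (|(t : ℝ)| * |(a j : ℝ)|) :=
    prod_le_prod (fun j _ => abs_nonneg _)
      (fun j _ => (abs_sinh_le _).trans (Real.exp_le_exp.2 (hx j)))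
  have h2 : ∏ j ∈ univ \ T, |Real.cosh (t * (w (n + j) * a j))| ≤
      ∏ j ∈ univ \ T, Real.exp (|(t : ℝ)| * |(a j : ℝ)|) :=
    prod_le_prod (fun j _ => abs_nonneg _)
      (fun j _ => (abs_cosh_le _).trans (Real.exp_le_exp.2 (hx j)))
  calc (∏ j ∈ T, |Real.sinh (t * (w (n + j) * a j))|) *
      ∏ j ∈ univ \ T, |Real.cosh (t * (w (n + j) * a j))|
      ≤ (∏ j ∈ T, Real.exp (|(t : ℝ)| * |(a j : ℝ)|)) *
        ∏ j ∈ univ \ T, Real.exp (|(t : ℝ)| * |(a j : ℝ)|) :=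
        mul_le_mul h1 h2 (prod_nonneg (fun j _ => abs_nonneg _))
          (prod_nonneg (fun j _ => (Real.exp_pos _).le))
    _ = ∏ j : Fin m, Real.exp (|(t : ℝ)| * |(a j : ℝ)|) := by
        rw [mul_comm]
        exact Finset.prod_sdiff (subset_univ T)
    _ = _ := (Real.exp_sum _ _).symm

/-- the sums `a + b` with an odd number of representations -/
def oddSums (S H : Finset ℕ) : Finset ℕ :=
  ((S ×ˢ H).image (fun x => x.1 + x.2)).filter
    (fun b => Odd ((S ×ˢ H).filter (fun x => x.1 + x.2 = b)).card)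

lemma oddSums_nonempty (S H : Finset ℕ) (hS : S.Nonempty) (hH : H.Nonempty) :
    (oddSums S H).Nonempty := by
  refine ⟨S.max' hS + H.max' hH, ?_⟩
  unfold oddSums
  rw [mem_filter, mem_image]
  refine ⟨⟨(S.max' hS, H.max' hH), ?_, rfl⟩, ?_⟩
  · rw [mem_product]; exact ⟨max'_mem _ hS, max'_mem _ hH⟩
  · have e : (S ×ˢ H).filter (fun x => x.1 + x.2 = S.max' hS + H.max' hH) =
        {(S.max' hS, H.max' hH)} := by
      ext x
      rw [mem_filter, mem_product, mem_singleton]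
      constructor
      · rintro ⟨⟨h1, h2⟩, h3⟩
        have h4 := le_max' S x.1 h1
        have h5 := le_max' H x.2 h2
        exact Prod.ext (by simp only; omega) (by simp only; omega)
      · rintro rfl
        exact ⟨⟨max'_mem _ hS, max'_mem _ hH⟩, rfl⟩
    rw [e, card_singleton]
    exact odd_one

lemma prod_prod (g : ℕ → ℝ) (hg : ∀ n, g n = 1 ∨ g n = -1) (S H : Finset ℕ) :
    ∏ j ∈ S, ∏ a ∈ H, g (j + a) = ∏ b ∈ oddSums S H, g b := by
  rw [← prod_product']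
  rw [← prod_fiberwise_of_maps_to (s := S ×ˢ H) (t := (S ×ˢ H).image (fun x => x.1 + x.2))
    (g := fun x => x.1 + x.2) (fun x hx => mem_image_of_mem _ hx)]
  unfold oddSums
  rw [prod_filter]
  refine prod_congr rfl (fun b _ => ?_)
  have h1 : ∏ x ∈ (S ×ˢ H).filter (fun x => x.1 + x.2 = b), g (x.1 + x.2) =
      g b ^ ((S ×ˢ H).filter (fun x => x.1 + x.2 = b)).card := by
    rw [← prod_const]
    refine prod_congr rfl (fun x hx => ?_)
    rw [(mem_filter.1 hx).2]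
  rw [h1]
  rcases hg b with h | h
  · rw [h]; simp
  · rw [h]
    split_ifs with ho
    · exact ho.neg_one_pow
    · exact (Nat.not_odd_iff_even.1 ho).neg_one_pow

theorem hyp_ae {Ω : Type*} [MeasurableSpace Ω] {μ : Measure Ω} [IsProbabilityMeasure μ]
    (Q : Ω → Set ℕ) (hm : ∀ p, MeasurableSet {ω | p ∈ Q ω})
    (hi : iIndepSet (fun p => {ω | p ∈ Q ω}) μ)
    (hD : Tendsto (fun N => ∑ p ∈ Pool.Agent.H629Chowla.win N,
      min (μ.real {ω | p ∈ Q ω}) (1 - μ.real {ω | p ∈ Q ω}) / p) atTop atTop)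
    (w : ℕ → ℝ) (hw : ∀ n, |w n| ≤ 1) :
    ∀ᵐ ω ∂μ, ∀ H : Finset ℕ, H.Nonempty →
      Hyp (fun n => ∏ a ∈ H, Pool.Agent.H629Chowla.lam (Q ω) (n + a)) w := by
  rw [ae_all_iff]
  intro H
  by_cases hH : H.Nonempty
  swap
  · exact Filter.Eventually.of_forall (fun ω h => absurd h hH)
  suffices hs : ∀ᵐ ω ∂μ, Hyp (fun n => ∏ a ∈ H, Pool.Agent.H629Chowla.lam (Q ω) (n + a)) w by
    filter_upwards [hs] with ω hω _
    exact hω
  unfold Hyp
  rw [ae_all_iff]
  intro m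
  rw [ae_all_iff]
  intro a
  rw [ae_all_iff]
  intro t
  rw [ae_all_iff]
  intro T
  set B : ℝ := Real.exp (∑ j : Fin m, |(t : ℝ)| * |(a j : ℝ)|) with hB
  have hB0 : 0 < B := Real.exp_pos _
  have h1 := Pool.Agent.H629Chowla.corr_ae Q hm hi hD (fun n => EE w a t T n / B) (fun n => by
    rw [abs_div, abs_of_pos hB0, div_le_one hB0]
    exact abs_EE_le w hw a t T n)
  filter_upwards [h1] with ω hω hT
  have h2 := (hω (oddSums (T.map Fin.valEmbedding) H)
    (oddSums_nonempty _ _ (by simpa using hT) hH)).const_mul B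
  rw [mul_zero] at h2
  refine h2.congr (fun N => ?_)
  rw [← mul_div_assoc, mul_sum]
  congr 1
  refine sum_congr rfl (fun n _ => ?_)
  have h3 := prod_prod (fun b => Pool.Agent.H629Chowla.lam (Q ω) (n + b))
    (fun b => Pool.Agent.H629Chowla.lam_sign _ _) (T.map Fin.valEmbedding) H
  rw [prod_map] at h3
  rw [← h3]
  have h4 : ∏ j ∈ T, ∏ a ∈ H, Pool.Agent.H629Chowla.lam (Q ω) (n + ((j : ℕ) + a)) =
      ∏ j ∈ T, ∏ a ∈ H, Pool.Agent.H629Chowla.lam (Q ω) (n + (j : ℕ) + a) := by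
    refine prod_congr rfl (fun j _ => prod_congr rfl (fun a _ => ?_))
    rw [add_assoc]
  rw [← h4]
  have h5 : ∀ P : ℝ, B * (EE w a t T n / B * P) = (B / B) * (EE w a t T n * P) := by
    intro P; ring
  rw [h5, div_self hB0.ne', one_mul]
  rfl

end Pool.Agent.H12RS
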