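import Pool.Agent.H12RS.Mat
import Pool.Agent.H12RS.Prob

/-! Averages in normed spaces along orbits which are approximated through matrix algebras. -/

set_option autoImplicit false

open Finset Filter Topology MeasureTheory ProbabilityTheory

namespace Pool.Agent.H12RS

universe u v

section block

variable {E : Type u} [NormedAddCommGroup E] [NormedSpace ℂ E]

lemma tele_vec (v : ℕ → E) (N : ℕ) :
    ∑ n ∈ Icc 1 N, v n - ∑ n ∈ Icc 1 N, v (n + 1) = v 1 - v (N + 1) := by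
  induction N with
  | zero => simp
  | succ N ih =>
    rw [sum_Icc_succ_top (by omega), sum_Icc_succ_top (by omega), add_sub_add_comm, ih]
    abel

lemma shift_le_vec (z : ℕ → E) {B : ℝ} (hz : ∀ n, ‖z n‖ ≤ B) (N j : ℕ) :
    ‖∑ n ∈ Icc 1 N, z n - ∑ n ∈ Icc 1 N, z (n + j)‖ ≤ 2 * B * j := by
  induction j with
  | zero => simp
  | succ j ih =>
    have h1 := tele_vec (fun n => z (n + j)) N
    have h2 : ∀ n, z (n + (j + 1)) = z (n + 1 + j) := fun n => by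
      congr 1; ring
    simp_rw [h2]
    have e : ∑ n ∈ Icc 1 N, z n - ∑ n ∈ Icc 1 N, z (n + 1 + j) =
        (∑ n ∈ Icc 1 N, z n - ∑ n ∈ Icc 1 N, z (n + j)) + (z (1 + j) - z (N + 1 + j)) := by
      rw [← h1]; abel
    rw [e]
    refine (norm_add_le _ _).trans ?_
    have h3 := (norm_sub_le (z (1 + j)) (z (N + 1 + j))).trans (add_le_add (hz _) (hz _))
    push_cast
    linarith

lemma block_avg_vec (z : ℕ → E) {B : ℝ} (hB : 0 ≤ B) (hz : ∀ n, ‖z n‖ ≤ B) (m : ℕ) (N : ℕ) :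
    (m : ℝ) * ‖∑ n ∈ Icc 1 N, z n‖ ≤
      ∑ n ∈ Icc 1 N, ‖∑ j : Fin m, z (n + j)‖ + 2 * B * (m : ℝ) ^ 2 := by
  have h1 : ∑ _j : Fin m, ∑ n ∈ Icc 1 N, z n = ∑ n ∈ Icc 1 N, ∑ j : Fin m, z (n + j) +
      ∑ j : Fin m, (∑ n ∈ Icc 1 N, z n - ∑ n ∈ Icc 1 N, z (n + j)) := by
    rw [sum_comm (s := Icc 1 N), ← sum_add_distrib]
    refine sum_congr rfl (fun j _ => ?_)
    abel
  have h2 : ‖∑ j : Fin m, (∑ n ∈ Icc 1 N, z n - ∑ n ∈ Icc 1 N, z (n + j))‖ ≤
      2 * B * (m : ℝ) ^ 2 := by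
    refine (norm_sum_le _ _).trans ?_
    calc ∑ j : Fin m, ‖∑ n ∈ Icc 1 N, z n - ∑ n ∈ Icc 1 N, z (n + j)‖ ≤
        ∑ j : Fin m, (2 * B * (m : ℝ)) := by
          refine sum_le_sum (fun j _ => (shift_le_vec z hz N j).trans ?_)
          have : ((j : ℕ) : ℝ) ≤ m := by exact_mod_cast j.2.le
          exact mul_le_mul_of_nonneg_left this (by positivity)
      _ = 2 * B * (m : ℝ) ^ 2 := by simp; ring
  have h3 : ‖∑ _j : Fin m, ∑ n ∈ Icc 1 N, z n‖ = m * ‖∑ n ∈ Icc 1 N, z n‖ := by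
    rw [sum_const, card_univ, Fintype.card_fin, ← Nat.cast_smul_eq_nsmul ℂ, norm_smul,
      Complex.norm_natCast]
  rw [← h3, h1]
  exact (norm_add_le _ _).trans (add_le_add (norm_sum_le _ _) h2)

end block

theorem hyp2_ae {Ω : Type*} [MeasurableSpace Ω] {μ : Measure Ω} [IsProbabilityMeasure μ]
    (Q : Ω → Set ℕ) (hm : ∀ p, MeasurableSet {ω | p ∈ Q ω})
    (hi : iIndepSet (fun p => {ω | p ∈ Q ω}) μ)
    (hD : Tendsto (fun N => ∑ p ∈ Pool.Agent.H629Chowla.win N,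
      min (μ.real {ω | p ∈ Q ω}) (1 - μ.real {ω | p ∈ Q ω}) / p) atTop atTop)
    (w : ℕ → ℝ) (hw : ∀ n, |w n| ≤ 1) :
    ∀ᵐ ω ∂μ, ∀ H : Finset ℕ, H.Nonempty →
      Hyp2 (fun n => ∏ a ∈ H, Pool.Agent.H629Chowla.lam (Q ω) (n + a)) w := by
  rw [ae_all_iff]
  intro H
  by_cases hH : H.Nonempty
  swap
  · exact Filter.Eventually.of_forall (fun ω h => absurd h hH)
  suffices hs : ∀ᵐ ω ∂μ, Hyp2 (fun n => ∏ a ∈ H, Pool.Agent.H629Chowla.lam (Q ω) (n + a)) w by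
    filter_upwards [hs] with ω hω _
    exact hω
  unfold Hyp2
  rw [ae_all_iff]
  intro q
  rw [ae_all_iff]
  intro m
  rw [ae_all_iff]
  intro s
  have h1 := Pool.Agent.H629Chowla.corr_ae Q hm hi hD (fun n => ∏ i, w (n + s i)) (fun n => by
    rw [Finset.abs_prod]
    exact prod_le_one (fun i _ => abs_nonneg _) (fun i _ => hw _))
  filter_upwards [h1] with ω hω hs
  set O : Finset (Fin m) := univ.filter (fun j => Odd ((univ.filter (fun i => s i = j)).card)) with hO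
  have hOne : O.Nonempty := by
    unfold EvenWord at hs
    push Not at hs
    obtain ⟨j, hj⟩ := hs
    exact ⟨j, mem_filter.2 ⟨mem_univ _, Nat.not_even_iff_odd.1 hj⟩⟩
  have h2 := hω (oddSums (O.map Fin.valEmbedding) H) (oddSums_nonempty _ _ (by simpa using hOne) hH)
  refine h2.congr (fun N => ?_)
  congr 1
  refine sum_congr rfl (fun n _ => ?_)
  have hL : ∀ b, ∏ a ∈ H, Pool.Agent.H629Chowla.lam (Q ω) (b + a) = 1 ∨
      ∏ a ∈ H, Pool.Agent.H629Chowla.lam (Q ω) (b + a) = -1 := by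
    intro b
    have h1 : |∏ a ∈ H, Pool.Agent.H629Chowla.lam (Q ω) (b + a)| = 1 := by
      rw [Finset.abs_prod]
      apply prod_eq_one
      intro a _
      rcases Pool.Agent.H629Chowla.lam_sign (Q ω) (b + a) with h | h <;> rw [h] <;> norm_num
    exact eq_or_eq_neg_of_abs_eq h1
  rw [prod_mul_distrib]
  congr 1
  rw [prod_word (fun j : Fin m => ∏ a ∈ H, Pool.Agent.H629Chowla.lam (Q ω) (n + j + a)) s]
  have h3 := prod_prod (fun b => Pool.Agent.H629Chowla.lam (Q ω) (n + b))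
    (fun b => Pool.Agent.H629Chowla.lam_sign _ _) (O.map Fin.valEmbedding) H
  rw [prod_map] at h3
  rw [← h3, hO, prod_filter]
  refine prod_congr rfl (fun j _ => ?_)
  have h4 : ∏ a ∈ H, Pool.Agent.H629Chowla.lam (Q ω) (n + (Fin.valEmbedding j + a)) =
      ∏ a ∈ H, Pool.Agent.H629Chowla.lam (Q ω) (n + (j : ℕ) + a) := by
    refine prod_congr rfl (fun a _ => ?_)
    rw [add_assoc]; rfl
  rcases hL (n + j) with h | h
  · rw [h4, h]; simp
  · rw [h4, h]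
    split_ifs with ho
    · exact ho.neg_one_pow.symm
    · exact (Nat.not_odd_iff_even.1 ho).neg_one_pow.symm

lemma rsmul_eq {k : ℕ} (r : ℝ) (B : Mk k) : r • B = (r : ℂ) • B := by
  ext v
  simp

theorem vec_bound (L w : ℕ → ℝ) (hwL : ∀ n, |w n * L n| ≤ 1) (hyp : Hyp2 L w)
    {X : Type u} [NormedAddCommGroup X] [NormedSpace ℂ X] {Y : Type v} [NormedAddCommGroup Y]
    [NormedSpace ℂ Y] (π : X →ₗᵢ[ℂ] Y) (T : X →L[ℂ] X) (hT : ‖T‖ ≤ 1) (x : X) {h δ : ℝ} (hh : 0 < h)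
    (hap : ∃ᶠ m : ℕ in atTop, ∃ k : ℕ, (k : ℝ) ≤ Real.exp (h * m) ∧
      ∃ (F : Type) (_ : NormedAddCommGroup F) (_ : NormedSpace ℂ F) (φ : X →ₗ[ℂ] F) (ψ : F →ₗ[ℂ] Y),
        Nonempty (F ≃ₗᵢ[ℂ] Mk k) ∧ (∀ a, ‖φ a‖ ≤ ‖a‖) ∧ (∀ b, ‖ψ b‖ ≤ ‖b‖) ∧
        ∑ j ∈ range m, ‖ψ (φ ((T^[j]) x)) - π ((T^[j]) x)‖ ≤ δ * m)
    {c : ℝ} (hc : 24 * Real.sqrt h * ‖x‖ + δ < c) :
    ∀ᶠ N : ℕ in atTop, ‖∑ n ∈ Icc 1 N, ((w n * L n : ℝ) : ℂ) • (T^[n]) x‖ ≤ c * N := by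
  have hbig : ∀ᶠ m : ℕ in atTop, 1 / h ≤ m := tendsto_natCast_atTop_atTop.eventually_ge_atTop _
  obtain ⟨m, ⟨k, hk, F, _, _, φ, ψ, ⟨iso⟩, hφ, hψ, hsum⟩, hm1, hm2⟩ :=
    (hap.and_eventually (hbig.and (eventually_ge_atTop 1))).exists
  have hm0 : (0 : ℝ) < m := by exact_mod_cast hm2
  have hhm : 1 ≤ h * m := by
    rw [div_le_iff₀ hh] at hm1
    linarith
  have hTn : ∀ (n : ℕ) (y : X), ‖(T^[n]) y‖ ≤ ‖y‖ := by
    intro n
    induction n with
    | zero => intro y; simp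
    | succ n ih =>
      intro y
      rw [Function.iterate_succ_apply']
      exact ((T.le_opNorm _).trans (mul_le_of_le_one_left (norm_nonneg _) hT)).trans (ih y)
  -- a number slightly larger than the norm of `x`
  obtain ⟨R, hR1, hR2⟩ : ∃ R : ℝ, ‖x‖ < R ∧ 24 * Real.sqrt h * R + δ < c := by
    have hs : 0 < 24 * Real.sqrt h := by
      have := Real.sqrt_pos.2 hh
      linarith
    have h1 : ‖x‖ < (c - δ) / (24 * Real.sqrt h) := by
      rw [lt_div_iff₀ hs]; linarith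
    obtain ⟨R, h2, h3⟩ := exists_between h1
    refine ⟨R, h2, ?_⟩
    rw [lt_div_iff₀ hs] at h3
    linarith
  have hR0 : 0 < R := lt_of_le_of_lt (norm_nonneg x) hR1
  set a : Fin m → Mk k := fun j => (R⁻¹ : ℂ) • iso (φ ((T^[j]) x)) with ha
  have ha1 : ∀ j, ‖a j‖ ≤ 1 := by
    intro j
    rw [ha]
    simp only
    rw [norm_smul, LinearIsometryEquiv.norm_map]
    have h1 : ‖((R : ℂ))⁻¹‖ = R⁻¹ := by
      rw [norm_inv, Complex.norm_real, Real.norm_of_nonneg hR0.le]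
    rw [h1, inv_mul_le_iff₀ hR0, mul_one]
    exact ((hφ _).trans (hTn _ _)).trans hR1.le
  have hmain := mat_avg L w hwL hyp hm2 hhm hk a ha1
  obtain ⟨d, hd⟩ : ∃ d : ℝ, d = c - (24 * Real.sqrt h * R + δ) := ⟨_, rfl⟩
  have hd0 : 0 < d := by rw [hd]; linarith
  have hbigN : ∀ᶠ N : ℕ in atTop, 2 * R * m / d ≤ N :=
    tendsto_natCast_atTop_atTop.eventually_ge_atTop _
  filter_upwards [hmain, hbigN] with N hN hN2
  have hu : ∀ n, ‖((w n * L n : ℝ) : ℂ) • (T^[n]) x‖ ≤ R := by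
    intro n
    rw [norm_smul, Complex.norm_real, Real.norm_eq_abs]
    calc |w n * L n| * ‖(T^[n]) x‖ ≤ 1 * ‖x‖ :=
          mul_le_mul (hwL n) (hTn n x) (norm_nonneg _) (by norm_num)
      _ ≤ R := by rw [one_mul]; exact hR1.le
  have h1 := block_avg_vec (fun n => ((w n * L n : ℝ) : ℂ) • (T^[n]) x) hR0.le hu m N
  have h2 : ∀ n, ‖∑ j : Fin m, ((w (n + j) * L (n + j) : ℝ) : ℂ) • (T^[n + (j : ℕ)]) x‖ ≤
      R * ‖∑ j : Fin m, (w (n + j) * L (n + j)) • a j‖ + δ * m := by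
    intro n
    set y : X := ∑ j : Fin m, ((w (n + j) * L (n + j) : ℝ) : ℂ) • (T^[(j : ℕ)]) x with hy
    have e1 : ∑ j : Fin m, ((w (n + j) * L (n + j) : ℝ) : ℂ) • (T^[n + (j : ℕ)]) x = (T^[n]) y := by
      have : (T^[n]) y = (T ^ n) y := by rw [FunLike.coe_pow_eq_iterate]
      rw [this, hy, map_sum]
      refine sum_congr rfl (fun j _ => ?_)
      rw [map_smul, FunLike.coe_pow_eq_iterate, Function.iterate_add_apply]
    rw [e1]
    refine (hTn n y).trans ?_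
    rw [← π.norm_map y]
    have e2 : π y = ψ (φ y) - ∑ j : Fin m, ((w (n + j) * L (n + j) : ℝ) : ℂ) •
        (ψ (φ ((T^[(j : ℕ)]) x)) - π ((T^[(j : ℕ)]) x)) := by
      rw [hy]
      simp only [map_sum, map_smul, smul_sub, sum_sub_distrib]
      abel
    rw [e2]
    refine (norm_sub_le _ _).trans (add_le_add ?_ ?_)
    · refine (hψ _).trans ?_
      rw [← iso.norm_map (φ y)]
      have e3 : iso (φ y) = (R : ℂ) • ∑ j : Fin m, (w (n + j) * L (n + j)) • a j := by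
        rw [hy, map_sum, map_sum, smul_sum]
        refine sum_congr rfl (fun j _ => ?_)
        rw [map_smul, map_smul, rsmul_eq, ha]
        simp only
        rw [smul_smul, smul_smul]
        congr 1
        have hRc : (R : ℂ) ≠ 0 := by exact_mod_cast hR0.ne'
        field_simp
      rw [e3, norm_smul, Complex.norm_real, Real.norm_of_nonneg hR0.le]
    · refine (norm_sum_le _ _).trans ?_
      rw [Fin.sum_univ_eq_sum_range (fun j => ‖((w (n + j) * L (n + j) : ℝ) : ℂ) •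
        (ψ (φ ((T^[j]) x)) - π ((T^[j]) x))‖) m]
      refine le_trans (sum_le_sum (fun j _ => ?_)) hsum
      rw [norm_smul, Complex.norm_real, Real.norm_eq_abs]
      exact mul_le_of_le_one_left (norm_nonneg _) (hwL _)
  have h3 := sum_le_sum (fun n (_ : n ∈ Icc 1 N) => h2 n)
  rw [sum_add_distrib, ← mul_sum] at h3
  have h4 : ∑ n ∈ Icc 1 N, δ * (m : ℝ) = δ * m * N := by simp; ring
  rw [h4] at h3
  have h5 : R * ∑ n ∈ Icc 1 N, ‖∑ j : Fin m, (w (n + j) * L (n + j)) • a j‖ ≤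
      R * (24 * Real.sqrt h * m * N) := mul_le_mul_of_nonneg_left hN hR0.le
  have h6 : 2 * R * (m : ℝ) ^ 2 ≤ m * d * N := by
    rw [div_le_iff₀ hd0] at hN2
    nlinarith
  have h7 : (m : ℝ) * ‖∑ n ∈ Icc 1 N, ((w n * L n : ℝ) : ℂ) • (T^[n]) x‖ ≤ m * (c * N) := by
    have e : c = 24 * Real.sqrt h * R + δ + d := by rw [hd]; ring
    rw [e]
    nlinarith
  exact le_of_mul_le_mul_left h7 hm0

end Pool.Agent.H12RS
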